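import Mathlib

set_option autoImplicit false

namespace Pool.Agent.Helper29.QT

open MvPolynomial

variable {R : Type} [CommRing R] {n c : ℕ}

/-- The number of points over the field with `p` elements of the projective scheme `W` defined by
the forms `h i`: the number of nonzero solutions divided by `p - 1`. -/
noncomputable def points {p : ℕ} (φ : R →+* ZMod p) (h : Fin c → MvPolynomial (Fin n) R) : ℝ :=
  (Nat.card {x : Fin n → ZMod p // x ≠ 0 ∧ ∀ i, eval₂ φ x (h i) = 0} : ℝ) / ((p : ℝ) - 1)

/-- The number of points over the field with `p` elements of the double cover `a y ^ 2 = f (x)` of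
`W`: the number of solutions `(x, y)` with `x` nonzero divided by `p - 1`. -/
noncomputable def coverPoints {p : ℕ} (φ : R →+* ZMod p) (h : Fin c → MvPolynomial (Fin n) R)
    (f : MvPolynomial (Fin n) R) (a : ℤ) : ℝ :=
  (Nat.card {z : (Fin n → ZMod p) × ZMod p // z.1 ≠ 0 ∧ (∀ i, eval₂ φ z.1 (h i) = 0) ∧
    (a : ZMod p) * z.2 ^ 2 = eval₂ φ z.1 f} : ℝ) / ((p : ℝ) - 1)

/-- The average of the Tauberian Tate conjecture for the surface `W`, over the primes of degree
one up to `T`. The primes of degree one over `p` are the kernels of the homomorphisms `φ` to the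
field with `p` elements; the trace of Frobenius on the second cohomology group is the number of
points minus `p ^ 2 + 1`. -/
noncomputable def average (T : ℕ) (h : Fin c → MvPolynomial (Fin n) R) : ℝ :=
  (∑ p ∈ (Finset.Icc 1 T).filter Nat.Prime, ∑ᶠ φ : R →+* ZMod p,
    (points φ h - (p : ℝ) ^ 2 - 1) * Real.log p / p) / T

/-- The average for the double cover `a y ^ 2 = f (x)`, over the primes of degree one up to `T`
which do not divide `2 a`. -/
noncomputable def twistAverage (T : ℕ) (h : Fin c → MvPolynomial (Fin n) R)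
    (f : MvPolynomial (Fin n) R) (a : ℤ) : ℝ :=
  (∑ p ∈ (Finset.Icc 1 T).filter (fun p : ℕ => p.Prime ∧ ¬ (p : ℤ) ∣ 2 * a), ∑ᶠ φ : R →+* ZMod p,
    (coverPoints φ h f a - (p : ℝ) ^ 2 - 1) * Real.log p / p) / T

end Pool.Agent.Helper29.QT
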