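import Pool.Agent.Helper29.QT.Dens
import Pool.Agent.Helper29.QT.GeoDefs
import Pool.Agent.Helper29.LN.Coord

set_option autoImplicit false

namespace Pool.Agent.Helper29.QT

open Finset MvPolynomial Filter Topology

section Points

variable {R : Type} [CommRing R] {n c : ℕ} {p : ℕ} [Fact p.Prime] (φ : R →+* ZMod p)
  (h : Fin c → MvPolynomial (Fin n) R) (f : MvPolynomial (Fin n) R)

open Classical in
/-- The nonzero solutions. -/
noncomputable def XW : Finset (Fin n → ZMod p) :=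
  univ.filter fun x => x ≠ 0 ∧ ∀ i, eval₂ φ x (h i) = 0

lemma points_eq : points φ h = ((XW φ h).card : ℝ) / ((p : ℝ) - 1) := by
  classical
  unfold points XW
  rw [Nat.card_eq_fintype_card, Fintype.card_subtype]

/-- The number of the solutions over a point. -/
lemma card_fibre (hp : p ≠ 2) {a : ℤ} (ha : ((a : ℤ) : ZMod p) ≠ 0) (t : ZMod p) :
    (((univ : Finset (ZMod p)).filter fun y => (a : ZMod p) * y ^ 2 = t).card : ℤ) =
      1 + legendreSym p a * quadraticChar (ZMod p) t := by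
  classical
  have hF : ringChar (ZMod p) ≠ 2 := by rw [ZMod.ringChar_zmod_n]; exact hp
  have h1 : (univ : Finset (ZMod p)).filter (fun y => (a : ZMod p) * y ^ 2 = t) =
      {y : ZMod p | y ^ 2 = (a : ZMod p)⁻¹ * t}.toFinset := by
    ext y
    simp only [Finset.mem_filter, Finset.mem_univ, true_and, Set.mem_toFinset, Set.mem_ofPred_eq]
    constructor
    · intro h; rw [← h, inv_mul_cancel_left₀ ha]
    · intro h; rw [h, mul_inv_cancel_left₀ ha]
  have h2 := quadraticChar_card_sqrts hF ((a : ZMod p)⁻¹ * t)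
  rw [h1]
  rw [h2, map_mul]
  have h3 : quadraticChar (ZMod p) (a : ZMod p)⁻¹ = legendreSym p a := by
    unfold legendreSym
    have h4 : quadraticChar (ZMod p) (a : ZMod p)⁻¹ * quadraticChar (ZMod p) (a : ZMod p) = 1 := by
      rw [← map_mul, inv_mul_cancel₀ ha, map_one]
    have h5 := quadraticChar_sq_one (F := ZMod p) ha
    rw [sq] at h5
    have h6 : quadraticChar (ZMod p) (a : ZMod p) ≠ 0 := by
      intro h0
      rw [h0, mul_zero] at h5
      exact zero_ne_one h5
    exact mul_right_cancel₀ h6 (h4.trans h5.symm)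
  rw [h3]
  ring

lemma coverPoints_eq (hp : p ≠ 2) {a : ℤ} (ha : ((a : ℤ) : ZMod p) ≠ 0) :
    coverPoints φ h f a = points φ h + (legendreSym p a : ℝ) *
      ((∑ x ∈ XW φ h, ((quadraticChar (ZMod p) (eval₂ φ x f) : ℤ) : ℝ)) / ((p : ℝ) - 1)) := by
  classical
  have h1 : (Nat.card {z : (Fin n → ZMod p) × ZMod p // z.1 ≠ 0 ∧ (∀ i, eval₂ φ z.1 (h i) = 0) ∧
      (a : ZMod p) * z.2 ^ 2 = eval₂ φ z.1 f} : ℤ) =
      ∑ x ∈ XW φ h, (((univ : Finset (ZMod p)).filter fun y =>
        (a : ZMod p) * y ^ 2 = eval₂ φ x f).card : ℤ) := by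
    rw [Nat.card_eq_fintype_card, Fintype.card_subtype, Finset.card_filter, Fintype.sum_prod_type]
    unfold XW
    rw [Finset.sum_filter]
    push_cast
    refine Finset.sum_congr rfl fun x _ => ?_
    by_cases hx : x ≠ 0 ∧ ∀ i, eval₂ φ x (h i) = 0
    · rw [if_pos hx, Finset.card_filter]
      push_cast
      refine Finset.sum_congr rfl fun y _ => ?_
      by_cases hy : (a : ZMod p) * y ^ 2 = eval₂ φ x f
      · rw [if_pos hy, if_pos ⟨hx.1, hx.2, hy⟩]
      · rw [if_neg hy, if_neg (fun h' => hy h'.2.2)]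
    · rw [if_neg hx]
      apply Finset.sum_eq_zero
      intro y _
      rw [if_neg]
      rintro ⟨h1, h2, _⟩
      exact hx ⟨h1, h2⟩
  have h2 : (Nat.card {z : (Fin n → ZMod p) × ZMod p // z.1 ≠ 0 ∧ (∀ i, eval₂ φ z.1 (h i) = 0) ∧
      (a : ZMod p) * z.2 ^ 2 = eval₂ φ z.1 f} : ℝ) = (XW φ h).card + (legendreSym p a : ℝ) *
      ∑ x ∈ XW φ h, ((quadraticChar (ZMod p) (eval₂ φ x f) : ℤ) : ℝ) := by
    have h3 : ((Nat.card {z : (Fin n → ZMod p) × ZMod p // z.1 ≠ 0 ∧
        (∀ i, eval₂ φ z.1 (h i) = 0) ∧ (a : ZMod p) * z.2 ^ 2 = eval₂ φ z.1 f} : ℤ) : ℝ) =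
        ((∑ x ∈ XW φ h, (((univ : Finset (ZMod p)).filter fun y =>
        (a : ZMod p) * y ^ 2 = eval₂ φ x f).card : ℤ) : ℤ) : ℝ) := by rw [h1]
    rw [Finset.sum_congr rfl fun x _ => card_fibre hp ha (eval₂ φ x f)] at h3
    push_cast at h3
    rw [h3, Finset.sum_add_distrib, Finset.sum_const, nsmul_eq_mul, mul_one, Finset.mul_sum]
  unfold coverPoints
  rw [h2, points_eq]
  ring

/-- The minus part changes by the quadratic character. -/
lemma cover_sub (hp : p ≠ 2) {a : ℤ} (ha : ((a : ℤ) : ZMod p) ≠ 0) :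
    coverPoints φ h f a - points φ h = ch a p * (coverPoints φ h f 1 - points φ h) := by
  have h1 : ((1 : ℤ) : ZMod p) ≠ 0 := by rw [Int.cast_one]; exact one_ne_zero
  rw [coverPoints_eq φ h f hp ha, coverPoints_eq φ h f hp h1, legendreSym.at_one,
    ch_odd a ((Fact.out : p.Prime).odd_of_ne_two hp), ← jacobiSym.legendreSym.to_jacobiSym]
  push_cast
  ring

end Points

section Main

variable {R : Type} [CommRing R] {d n c : ℕ}

open Classical in
/-- The coefficients of the minus part. -/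
noncomputable def cc (h : Fin c → MvPolynomial (Fin n) R) (f : MvPolynomial (Fin n) R)
    (p : ℕ) : ℝ :=
  ∑ᶠ φ : R →+* ZMod p, (coverPoints φ h f 1 - points φ h) / p

/-- The term of `W`. -/
noncomputable def bw (h : Fin c → MvPolynomial (Fin n) R) (p : ℕ) : ℝ :=
  ∑ᶠ φ : R →+* ZMod p, (points φ h - (p : ℝ) ^ 2 - 1) * Real.log p / p

lemma abs_cc_le (b : Module.Basis (Fin d) ℤ R) {h : Fin c → MvPolynomial (Fin n) R}
    {f : MvPolynomial (Fin n) R} {M : ℝ} (hM0 : 0 ≤ M)
    {p : ℕ} (hp : p.Prime)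
    (hM : ∀ φ : R →+* ZMod p, |coverPoints φ h f 1 - points φ h| ≤ M * p) :
    |cc h f p| ≤ d * M := by
  have hF : Fact p.Prime := ⟨hp⟩
  have hfin : Finite (R →+* ZMod p) := Pool.Agent.Helper29.LN.hom_finite b
  have hft := Fintype.ofFinite (R →+* ZMod p)
  have hp0 : (0 : ℝ) < p := by exact_mod_cast hp.pos
  unfold cc
  rw [finsum_eq_sum_of_fintype]
  calc _ ≤ ∑ φ : R →+* ZMod p, |(coverPoints φ h f 1 - points φ h) / p| :=
        Finset.abs_sum_le_sum_abs _ _
    _ ≤ ∑ φ : R →+* ZMod p, M := by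
        refine Finset.sum_le_sum fun φ _ => ?_
        rw [abs_div, abs_of_pos hp0, div_le_iff₀ hp0]
        exact hM φ
    _ = Fintype.card (R →+* ZMod p) * M := by
        rw [Finset.sum_const, Finset.card_univ, nsmul_eq_mul]
    _ ≤ d * M := mul_le_mul_of_nonneg_right
        (by exact_mod_cast Pool.Agent.Helper29.LN.card_hom_le b) hM0

lemma delta_eq (b : Module.Basis (Fin d) ℤ R) (h : Fin c → MvPolynomial (Fin n) R)
    (f : MvPolynomial (Fin n) R) (a : ℤ) (T : ℕ) :
    twistAverage T h f a - average T h = SF (cc h f) T a / T -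
      (∑ p ∈ (PR T).filter (fun p : ℕ => (p : ℤ) ∣ 2 * a), bw h p) / T := by
  classical
  unfold twistAverage average
  rw [← sub_div, ← sub_div]
  congr 1
  have h1 : (Icc 1 T).filter (fun p : ℕ => p.Prime ∧ ¬ (p : ℤ) ∣ 2 * a) =
      (PR T).filter (fun p : ℕ => ¬ (p : ℤ) ∣ 2 * a) := by
    unfold PR
    rw [Finset.filter_filter]
  have h2 : ∑ p ∈ (Icc 1 T).filter Nat.Prime, ∑ᶠ φ : R →+* ZMod p,
      (points φ h - (p : ℝ) ^ 2 - 1) * Real.log p / p =
      ∑ p ∈ (PR T).filter (fun p : ℕ => (p : ℤ) ∣ 2 * a), bw h p +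
      ∑ p ∈ (PR T).filter (fun p : ℕ => ¬ (p : ℤ) ∣ 2 * a), bw h p := by
    rw [Finset.sum_filter_add_sum_filter_not]
    rfl
  have h3 : SF (cc h f) T a = ∑ p ∈ (PR T).filter (fun p : ℕ => ¬ (p : ℤ) ∣ 2 * a),
      ch a p * (cc h f p * Real.log p) := by
    unfold SF
    rw [← Finset.sum_filter_add_sum_filter_not (PR T) (fun p : ℕ => (p : ℤ) ∣ 2 * a)]
    rw [Finset.sum_eq_zero, zero_add]
    intro p hp
    obtain ⟨hp1, hp2⟩ := Finset.mem_filter.1 hp
    have hpp : p.Prime := (Finset.mem_filter.1 hp1).2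
    have hch : ch a p = 0 := by
      by_cases h2 : p = 2
      · rw [h2]; unfold ch; rw [if_neg]; decide
      · have hodd := hpp.odd_of_ne_two h2
        rw [ch_odd a hodd]
        have h4 : (p : ℤ) ∣ a := by
          rcases (Nat.prime_iff_prime_int.1 hpp).dvd_or_dvd hp2 with h5 | h5
          · exfalso
            have h6 : p ∣ 2 := by exact_mod_cast h5
            exact h2 ((Nat.prime_dvd_prime_iff_eq hpp Nat.prime_two).1 h6)
          · exact h5
        have h5 : jacobiSym a p = 0 := by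
          rw [jacobiSym.eq_zero_iff]
          refine ⟨hpp.ne_zero, ?_⟩
          intro h6
          have h7 : (p : ℕ) ∣ a.gcd p := by
            rw [Int.gcd_eq_natAbs, Int.natAbs_natCast]
            exact Nat.dvd_gcd (Int.natCast_dvd.1 h4) dvd_rfl
          rw [h6] at h7
          exact hpp.one_lt.ne' (Nat.dvd_one.1 h7)
        rw [h5]
        norm_num
    rw [hch, zero_mul]
  rw [h1, h2, h3]
  have h4 : ∑ p ∈ (PR T).filter (fun p : ℕ => ¬ (p : ℤ) ∣ 2 * a), ∑ᶠ φ : R →+* ZMod p,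
      (coverPoints φ h f a - (p : ℝ) ^ 2 - 1) * Real.log p / p =
      ∑ p ∈ (PR T).filter (fun p : ℕ => ¬ (p : ℤ) ∣ 2 * a),
        (ch a p * (cc h f p * Real.log p) + bw h p) := by
    refine Finset.sum_congr rfl fun p hp => ?_
    obtain ⟨hp1, hp2⟩ := Finset.mem_filter.1 hp
    have hpp : Fact p.Prime := ⟨(Finset.mem_filter.1 hp1).2⟩
    have hfin : Finite (R →+* ZMod p) := Pool.Agent.Helper29.LN.hom_finite b
    have hft := Fintype.ofFinite (R →+* ZMod p)
    have hne : p ≠ 2 := by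
      rintro rfl
      exact hp2 (Dvd.intro a rfl)
    have ha : ((a : ℤ) : ZMod p) ≠ 0 := by
      intro h5
      rw [ZMod.intCast_zmod_eq_zero_iff_dvd] at h5
      exact hp2 (Dvd.dvd.mul_left h5 2)
    unfold cc bw
    rw [finsum_eq_sum_of_fintype, finsum_eq_sum_of_fintype, finsum_eq_sum_of_fintype,
      Finset.sum_mul, Finset.mul_sum, ← Finset.sum_add_distrib]
    refine Finset.sum_congr rfl fun φ _ => ?_
    have h5 := cover_sub φ h f hne ha
    have h6 : coverPoints φ h f a = points φ h +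
        ch a p * (coverPoints φ h f 1 - points φ h) := by rw [← h5]; ring
    rw [h6]
    ring
  rw [h4, Finset.sum_add_distrib]
  ring

lemma tendsto_delta (b : Module.Basis (Fin d) ℤ R) (h : Fin c → MvPolynomial (Fin n) R)
    (f : MvPolynomial (Fin n) R) {a : ℤ} (ha : a ≠ 0) :
    Tendsto (fun T : ℕ => (twistAverage T h f a - average T h) - SF (cc h f) T a / T)
      atTop (𝓝 0) := by
  classical
  obtain ⟨K, hK⟩ : ∃ K : ℝ, K = ∑ p ∈ (2 * a).natAbs.primeFactors, |bw h p| := ⟨_, rfl⟩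
  have h1 : Tendsto (fun T : ℕ => K / (T : ℝ)) atTop (𝓝 0) := by
    exact tendsto_const_div_atTop_nhds_zero_nat K
  apply squeeze_zero_norm' _ h1
  filter_upwards with T
  rw [delta_eq b, Real.norm_eq_abs]
  have h2 : SF (cc h f) T a / T - (∑ p ∈ (PR T).filter (fun p : ℕ => (p : ℤ) ∣ 2 * a), bw h p) / T -
      SF (cc h f) T a / T = -((∑ p ∈ (PR T).filter (fun p : ℕ => (p : ℤ) ∣ 2 * a), bw h p) / T) := by
    ring
  rw [h2, abs_neg, abs_div, abs_of_nonneg (Nat.cast_nonneg T : (0 : ℝ) ≤ T)]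
  apply div_le_div_of_nonneg_right _ (Nat.cast_nonneg T)
  refine (Finset.abs_sum_le_sum_abs _ _).trans ?_
  rw [hK]
  apply Finset.sum_le_sum_of_subset_of_nonneg
  · intro p hp
    obtain ⟨hp1, hp2⟩ := Finset.mem_filter.1 hp
    rw [Nat.mem_primeFactors]
    refine ⟨(Finset.mem_filter.1 hp1).2, Int.natCast_dvd.1 hp2, ?_⟩
    rw [Int.natAbs_ne_zero]
    exact mul_ne_zero two_ne_zero ha
  · intro p _ _
    exact abs_nonneg _

lemma tendsto_cut (c₁ : ℕ → ℝ) (P₀ : ℕ) (a : ℤ) :
    Tendsto (fun T : ℕ => SF c₁ T a / T - SF (fun p => if P₀ ≤ p then c₁ p else 0) T a / T)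
      atTop (𝓝 0) := by
  classical
  obtain ⟨K, hK⟩ : ∃ K : ℝ, K = ∑ p ∈ range P₀, |ch a p * (c₁ p * Real.log p)| := ⟨_, rfl⟩
  have h1 : Tendsto (fun T : ℕ => K / (T : ℝ)) atTop (𝓝 0) := by
    exact tendsto_const_div_atTop_nhds_zero_nat K
  apply squeeze_zero_norm' _ h1
  filter_upwards with T
  rw [Real.norm_eq_abs, ← sub_div, abs_div, abs_of_nonneg (Nat.cast_nonneg T : (0 : ℝ) ≤ T)]
  apply div_le_div_of_nonneg_right _ (Nat.cast_nonneg T)
  have h2 : SF c₁ T a - SF (fun p => if P₀ ≤ p then c₁ p else 0) T a =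
      ∑ p ∈ (PR T).filter (fun p => ¬ P₀ ≤ p), ch a p * (c₁ p * Real.log p) := by
    unfold SF
    rw [← Finset.sum_sub_distrib, Finset.sum_filter]
    refine Finset.sum_congr rfl fun p _ => ?_
    by_cases hp : P₀ ≤ p
    · rw [if_neg (not_not.2 hp)]
      simp only [if_pos hp]
      ring
    · rw [if_pos hp]
      simp only [if_neg hp]
      ring
  rw [h2, hK]
  refine (Finset.abs_sum_le_sum_abs _ _).trans ?_
  apply Finset.sum_le_sum_of_subset_of_nonneg
  · intro p hp
    rw [Finset.mem_range]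
    exact not_le.1 (Finset.mem_filter.1 hp).2
  · intro p _ _
    exact abs_nonneg _

/-- The main theorem on quadratic twists. -/
theorem main (b : Module.Basis (Fin d) ℤ R) (h : Fin c → MvPolynomial (Fin n) R)
    (f : MvPolynomial (Fin n) R) {M : ℝ}
    (hM : ∀ᶠ p : ℕ in atTop, p.Prime → ∀ φ : R →+* ZMod p,
      |coverPoints φ h f 1 - points φ h| ≤ M * p) {ε η : ℝ} (hε : 0 < ε) (hη : 0 < η) :
    ∃ E : Finset ℤ, (E.card : ℝ) ≤ 7 * (d * M) ^ 2 / (ε ^ 2 * η) ∧
      ∀ a : ℤ, Squarefree a → a ∉ E → ∃ᶠ X : ℕ in atTop,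
        (1 - η) * X < (Nat.card {T : ℕ // 1 ≤ T ∧ T ≤ X ∧
          |twistAverage T h f a - average T h| ≤ ε} : ℝ) := by
  classical
  obtain ⟨P₀, hP₀⟩ := Filter.eventually_atTop.1 hM
  obtain ⟨c₁, hc₁⟩ : ∃ c₁ : ℕ → ℝ, c₁ = fun p => if P₀ ≤ p then cc h f p else 0 := ⟨_, rfl⟩
  have hc : ∀ p : ℕ, p.Prime → |c₁ p| ≤ d * |M| := by
    intro p hp
    rw [hc₁]
    dsimp only
    split_ifs with h1
    · exact abs_cc_le b (abs_nonneg M) hp fun φ => (hP₀ p h1 hp φ).trans
        (mul_le_mul_of_nonneg_right (le_abs_self M) (Nat.cast_nonneg p))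
    · rw [abs_zero]; positivity
  have htend : ∀ a : ℤ, Squarefree a → Tendsto (fun T : ℕ =>
      (twistAverage T h f a - average T h) - SF c₁ T a / T) atTop (𝓝 0) := by
    intro a ha
    have h1 := (tendsto_delta b h f ha.ne_zero).add (tendsto_cut (cc h f) P₀ a)
    rw [add_zero] at h1
    rw [hc₁]
    refine h1.congr fun T => ?_
    ring
  obtain ⟨h1, h2⟩ := ncard_le (c := c₁) (M := d * |M|) hc
    (Δ := fun a T => twistAverage T h f a - average T h) htend hε hη
    (S := {a : ℤ | Squarefree a ∧ ∀ᶠ X : ℕ in atTop, η * X ≤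
      (Nat.card {T : ℕ // 1 ≤ T ∧ T ≤ X ∧ ε < |twistAverage T h f a - average T h|} : ℝ)})
    (fun a ha => ha.1) (fun a ha => ha.2)
  refine ⟨h1.toFinset, ?_, ?_⟩
  · rw [← Set.ncard_eq_toFinset_card _ h1]
    refine h2.trans (le_of_eq ?_)
    rw [mul_pow, mul_pow, sq_abs]
  · intro a ha haE
    rw [Set.Finite.mem_toFinset, Set.mem_ofPred_eq, not_and] at haE
    have h3 := haE ha
    rw [Filter.not_eventually] at h3
    refine h3.mono fun X hX => ?_
    push Not at hX
    have h4 : (Nat.card {T : ℕ // 1 ≤ T ∧ T ≤ X ∧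
          |twistAverage T h f a - average T h| ≤ ε} : ℝ) +
        (Nat.card {T : ℕ // 1 ≤ T ∧ T ≤ X ∧ ε < |twistAverage T h f a - average T h|} : ℝ) =
        X := by
      have e1 : Nat.card {T : ℕ // 1 ≤ T ∧ T ≤ X ∧
          |twistAverage T h f a - average T h| ≤ ε} =
          ((Icc 1 X).filter fun T => |twistAverage T h f a - average T h| ≤ ε).card := by
        apply Nat.subtype_card
        intro T
        rw [Finset.mem_filter, Finset.mem_Icc, and_assoc]
      have e2 : Nat.card {T : ℕ // 1 ≤ T ∧ T ≤ X ∧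
          ε < |twistAverage T h f a - average T h|} =
          ((Icc 1 X).filter fun T => ¬ |twistAverage T h f a - average T h| ≤ ε).card := by
        apply Nat.subtype_card
        intro T
        rw [Finset.mem_filter, Finset.mem_Icc, and_assoc, not_le]
      rw [e1, e2]
      have e3 := Finset.card_filter_add_card_filter_not (s := Icc 1 X)
        (fun T => |twistAverage T h f a - average T h| ≤ ε)
      rw [Nat.card_Icc, Nat.add_sub_cancel] at e3
      exact_mod_cast e3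
    linarith

end Main

end Pool.Agent.Helper29.QT
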