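import Mathlib

set_option autoImplicit false

namespace Pool.Agent.Helper29.QT

/-- The average of the Tauberian Tate conjecture up to `T` over the primes of degree one of the
ring `R`, the kernels of the homomorphisms `φ` from `R` to the fields with `p` elements, where
`β p φ` is the trace of Frobenius on the second cohomology group. -/
noncomputable def avg {R : Type} [CommRing R] (T : ℕ) (β : ∀ p : ℕ, (R →+* ZMod p) → ℝ) : ℝ :=
  (∑ p ∈ (Finset.Icc 1 T).filter Nat.Prime,
    ∑ᶠ φ : R →+* ZMod p, β p φ * Real.log p / p) / T

/-- The ring `R[√a]`. -/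
abbrev Adj (R : Type) [CommRing R] (a : ℤ) : Type :=
  AdjoinRoot (Polynomial.X ^ 2 - Polynomial.C (a : R))

/-- The traces of the base change to `R[√a]`: the trace at a prime of degree one of `R[√a]` is the
trace at the prime of `R` below. -/
noncomputable def baseChange {R : Type} [CommRing R] (a : ℤ) (β : ∀ p : ℕ, (R →+* ZMod p) → ℝ) :
    ∀ p : ℕ, (Adj R a →+* ZMod p) → ℝ :=
  fun p φ => β p (φ.comp (AdjoinRoot.of _))

end Pool.Agent.Helper29.QT
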