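import Pool.Agent.Helper29.QT.Geo
import Pool.Agent.Helper29.QT.BaseDefs

set_option autoImplicit false

namespace Pool.Agent.Helper29.QT

open Finset MvPolynomial Filter Topology

section Main

variable {R : Type} [CommRing R] {d : ℕ}

/-- The homomorphisms from `R[√a]`. -/
noncomputable def homEquiv (a : ℤ) (p : ℕ) :
    (Adj R a →+* ZMod p) ≃ {z : (R →+* ZMod p) × ZMod p // z.2 ^ 2 = (a : ZMod p)} where
  toFun φ := ⟨(φ.comp (AdjoinRoot.of _), φ (AdjoinRoot.root _)), by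
    have h1 : (AdjoinRoot.root (Polynomial.X ^ 2 - Polynomial.C (a : R))) ^ 2 =
        AdjoinRoot.of _ (a : R) := by
      have h2 := AdjoinRoot.eval₂_root (Polynomial.X ^ 2 - Polynomial.C (a : R))
      rw [Polynomial.eval₂_sub, Polynomial.eval₂_pow, Polynomial.eval₂_X, Polynomial.eval₂_C,
        sub_eq_zero] at h2
      exact h2
    dsimp only
    rw [← map_pow, h1, ← RingHom.comp_apply, map_intCast]⟩
  invFun z := AdjoinRoot.lift z.1.1 z.1.2 (by
    rw [Polynomial.eval₂_sub, Polynomial.eval₂_pow, Polynomial.eval₂_X, Polynomial.eval₂_C,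
      z.2, map_intCast, sub_self])
  left_inv φ := by
    apply AdjoinRoot.ringHom_ext
    · ext x
      simp
    · simp
  right_inv z := by
    apply Subtype.ext
    apply Prod.ext
    · ext x
      simp
    · simp

/-- The number of the square roots. -/
lemma card_roots {p : ℕ} [Fact p.Prime] (hp : p ≠ 2) (a : ℤ) :
    (((univ : Finset (ZMod p)).filter fun y => y ^ 2 = (a : ZMod p)).card : ℝ) = 1 + ch a p := by
  have h1 := card_fibre (p := p) hp (a := 1) (by rw [Int.cast_one]; exact one_ne_zero) (a : ZMod p)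
  simp only [Int.cast_one, one_mul] at h1
  rw [legendreSym.at_one, one_mul] at h1
  rw [ch_odd a ((Fact.out : p.Prime).odd_of_ne_two hp), ← jacobiSym.legendreSym.to_jacobiSym]
  unfold legendreSym
  exact_mod_cast h1

/-- The sum of the traces over `p`. -/
noncomputable def cb (β : ∀ p : ℕ, (R →+* ZMod p) → ℝ) (p : ℕ) : ℝ :=
  ∑ᶠ φ : R →+* ZMod p, β p φ / p

lemma base_term (b : Module.Basis (Fin d) ℤ R) (β : ∀ p : ℕ, (R →+* ZMod p) → ℝ) {p : ℕ}
    [Fact p.Prime] (a : ℤ) :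
    ∑ᶠ φ : Adj R a →+* ZMod p, baseChange a β p φ * Real.log p / p =
      (((univ : Finset (ZMod p)).filter fun y => y ^ 2 = (a : ZMod p)).card : ℝ) *
        (cb β p * Real.log p) := by
  classical
  have hfin : Finite (R →+* ZMod p) := Pool.Agent.Helper29.LN.hom_finite b
  have hft := Fintype.ofFinite (R →+* ZMod p)
  have h1 : ∑ᶠ φ : Adj R a →+* ZMod p,
      baseChange a β p φ * Real.log p / p =
      ∑ᶠ z : {z : (R →+* ZMod p) × ZMod p // z.2 ^ 2 = (a : ZMod p)},
        β p z.1.1 * Real.log p / p := by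
    rw [← finsum_comp_equiv (homEquiv a p)]
    apply finsum_congr
    intro φ
    rfl
  rw [h1, finsum_eq_sum_of_fintype]
  have h2 : ∑ z : {z : (R →+* ZMod p) × ZMod p // z.2 ^ 2 = (a : ZMod p)},
        β p z.1.1 * Real.log p / p =
      ∑ z ∈ (univ : Finset ((R →+* ZMod p) × ZMod p)).filter fun z => z.2 ^ 2 = (a : ZMod p),
        β p z.1 * Real.log p / p :=
    (Finset.sum_subtype ((univ : Finset ((R →+* ZMod p) × ZMod p)).filter
      fun z => z.2 ^ 2 = (a : ZMod p)) (fun z => by rw [Finset.mem_filter]; simp)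
      fun z => β p z.1 * Real.log p / p).symm
  rw [h2, Finset.sum_filter, Fintype.sum_prod_type]
  unfold cb
  rw [finsum_eq_sum_of_fintype, Finset.sum_mul, Finset.mul_sum]
  refine Finset.sum_congr rfl fun φ _ => ?_
  rw [← Finset.sum_filter]
  dsimp only
  rw [Finset.sum_const, nsmul_eq_mul]
  ring

lemma abs_cb_le (b : Module.Basis (Fin d) ℤ R) {β : ∀ p : ℕ, (R →+* ZMod p) → ℝ} {M : ℝ}
    (hM0 : 0 ≤ M) {p : ℕ} (hp : p.Prime)
    (hM : ∀ φ : R →+* ZMod p, |β p φ| ≤ M * p) :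
    |cb β p| ≤ d * M := by
  have hF : Fact p.Prime := ⟨hp⟩
  have hfin : Finite (R →+* ZMod p) := Pool.Agent.Helper29.LN.hom_finite b
  have hft := Fintype.ofFinite (R →+* ZMod p)
  have hp0 : (0 : ℝ) < p := by exact_mod_cast hp.pos
  unfold cb
  rw [finsum_eq_sum_of_fintype]
  calc _ ≤ ∑ φ : R →+* ZMod p, |β p φ / p| :=
        Finset.abs_sum_le_sum_abs _ _
    _ ≤ ∑ φ : R →+* ZMod p, M := by
        refine Finset.sum_le_sum fun φ _ => ?_
        rw [abs_div, abs_of_pos hp0, div_le_iff₀ hp0]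
        exact hM φ
    _ = Fintype.card (R →+* ZMod p) * M := by
        rw [Finset.sum_const, Finset.card_univ, nsmul_eq_mul]
    _ ≤ d * M := mul_le_mul_of_nonneg_right
        (by exact_mod_cast Pool.Agent.Helper29.LN.card_hom_le b) hM0

lemma base_delta (b : Module.Basis (Fin d) ℤ R) (β : ∀ p : ℕ, (R →+* ZMod p) → ℝ)
    {a : ℤ} (ha : a ≠ 0) :
    Tendsto (fun T : ℕ => (avg T (baseChange a β) - avg T β) - SF (cb β) T a / T)
      atTop (𝓝 0) := by
  classical
  obtain ⟨r, hr⟩ : ∃ r : ℕ → ℝ, r = fun p => ∑ᶠ φ : Adj R a →+* ZMod p,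
    baseChange a β p φ * Real.log p / p -
      (1 + ch a p) * (cb β p * Real.log p) := ⟨_, rfl⟩
  obtain ⟨K, hK⟩ : ∃ K : ℝ, K = ∑ p ∈ (2 * a).natAbs.primeFactors, |r p| := ⟨_, rfl⟩
  have h1 : Tendsto (fun T : ℕ => K / (T : ℝ)) atTop (𝓝 0) := by
    exact tendsto_const_div_atTop_nhds_zero_nat K
  apply squeeze_zero_norm' _ h1
  filter_upwards with T
  have h2 : (avg T (baseChange a β) - avg T β) - SF (cb β) T a / T =
      (∑ p ∈ PR T, r p) / T := by
    unfold avg SF
    rw [← sub_div, ← sub_div]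
    congr 1
    have h3 : (Icc 1 T).filter Nat.Prime = PR T := rfl
    rw [h3, ← Finset.sum_sub_distrib, ← Finset.sum_sub_distrib]
    refine Finset.sum_congr rfl fun p hp => ?_
    have hpp : Fact p.Prime := ⟨(Finset.mem_filter.1 hp).2⟩
    have hfin : Finite (R →+* ZMod p) := Pool.Agent.Helper29.LN.hom_finite b
    have hft := Fintype.ofFinite (R →+* ZMod p)
    have h4 : ∑ᶠ φ : R →+* ZMod p, β p φ * Real.log p / p =
        cb β p * Real.log p := by
      unfold cb
      rw [finsum_eq_sum_of_fintype, finsum_eq_sum_of_fintype, Finset.sum_mul]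
      exact Finset.sum_congr rfl fun φ _ => by ring
    rw [h4, hr]
    dsimp only
    ring
  have h3 : ∀ p ∈ PR T, ¬ (p : ℤ) ∣ 2 * a → r p = 0 := by
    intro p hp hpa
    have hpp : Fact p.Prime := ⟨(Finset.mem_filter.1 hp).2⟩
    have hne : p ≠ 2 := by
      rintro rfl
      exact hpa (Dvd.intro a rfl)
    rw [hr]
    dsimp only
    rw [base_term b, card_roots hne a, sub_self]
  rw [h2, Real.norm_eq_abs, abs_div, abs_of_nonneg (Nat.cast_nonneg T : (0 : ℝ) ≤ T)]
  apply div_le_div_of_nonneg_right _ (Nat.cast_nonneg T)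
  rw [← Finset.sum_filter_add_sum_filter_not (PR T) (fun p : ℕ => (p : ℤ) ∣ 2 * a),
    Finset.sum_eq_zero (s := (PR T).filter fun p : ℕ => ¬ (p : ℤ) ∣ 2 * a)
      (fun p hp => h3 p (Finset.mem_filter.1 hp).1 (Finset.mem_filter.1 hp).2), add_zero]
  refine (Finset.abs_sum_le_sum_abs _ _).trans ?_
  rw [hK]
  apply Finset.sum_le_sum_of_subset_of_nonneg
  · intro p hp
    obtain ⟨hp1, hp2⟩ := Finset.mem_filter.1 hp
    rw [Nat.mem_primeFactors]
    refine ⟨(Finset.mem_filter.1 hp1).2, Int.natCast_dvd.1 hp2, ?_⟩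
    rw [Int.natAbs_ne_zero]
    exact mul_ne_zero two_ne_zero ha
  · intro p _ _
    exact abs_nonneg _

/-- The main theorem on quadratic base change. -/
theorem base (b : Module.Basis (Fin d) ℤ R) (β : ∀ p : ℕ, (R →+* ZMod p) → ℝ) {M : ℝ}
    (hM : ∀ᶠ p : ℕ in atTop, p.Prime → ∀ φ : R →+* ZMod p,
      |β p φ| ≤ M * p) {ε η : ℝ} (hε : 0 < ε) (hη : 0 < η) :
    ∃ E : Finset ℤ, (E.card : ℝ) ≤ 7 * (d * M) ^ 2 / (ε ^ 2 * η) ∧
      ∀ a : ℤ, Squarefree a → a ∉ E → ∃ᶠ X : ℕ in atTop,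
        (1 - η) * X < (Nat.card {T : ℕ // 1 ≤ T ∧ T ≤ X ∧
          |avg T (baseChange a β) - avg T β| ≤ ε} : ℝ) := by
  classical
  obtain ⟨P₀, hP₀⟩ := Filter.eventually_atTop.1 hM
  obtain ⟨c₁, hc₁⟩ : ∃ c₁ : ℕ → ℝ, c₁ = fun p => if P₀ ≤ p then cb β p else 0 := ⟨_, rfl⟩
  have hc : ∀ p : ℕ, p.Prime → |c₁ p| ≤ d * |M| := by
    intro p hp
    rw [hc₁]
    dsimp only
    split_ifs with h1
    · exact abs_cb_le b (abs_nonneg M) hp fun φ => (hP₀ p h1 hp φ).trans
        (mul_le_mul_of_nonneg_right (le_abs_self M) (Nat.cast_nonneg p))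
    · rw [abs_zero]; positivity
  have htend : ∀ a : ℤ, Squarefree a → Tendsto (fun T : ℕ =>
      (avg T (baseChange a β) - avg T β) - SF c₁ T a / T) atTop (𝓝 0) := by
    intro a ha
    have h1 := (base_delta b β ha.ne_zero).add (tendsto_cut (cb β) P₀ a)
    rw [add_zero] at h1
    rw [hc₁]
    refine h1.congr fun T => ?_
    ring
  exact conclude (c := c₁) hc (fun a T => avg T (baseChange a β) - avg T β) htend hε hη

end Main

end Pool.Agent.Helper29.QT
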