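import Mathlib

set_option autoImplicit false

namespace Pool.Agent.Helper29.QT

open Finset
open scoped NumberTheorySymbols

/-- The quadratic character of `m` at the odd numbers. -/
noncomputable def ch (m : ℤ) (n : ℕ) : ℝ := if Odd n then ((jacobiSym m n : ℤ) : ℝ) else 0

lemma ch_odd (m : ℤ) {n : ℕ} (hn : Odd n) : ch m n = ((jacobiSym m n : ℤ) : ℝ) := if_pos hn

lemma ch_mul_left (a b : ℤ) (n : ℕ) : ch (a * b) n = ch a n * ch b n := by
  unfold ch
  split_ifs
  · rw [jacobiSym.mul_left]; push_cast; rfl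
  · rw [mul_zero]

lemma ch_mul_right (m : ℤ) (n n' : ℕ) : ch m (n * n') = ch m n * ch m n' := by
  unfold ch
  by_cases h1 : Odd n <;> by_cases h2 : Odd n'
  · rw [if_pos (h1.mul h2), if_pos h1, if_pos h2, jacobiSym.mul_right' m h1.pos.ne' h2.pos.ne']
    push_cast; rfl
  · rw [if_neg (fun h => h2 (Nat.odd_mul.1 h).2), if_neg h2, mul_zero]
  · rw [if_neg (fun h => h1 (Nat.odd_mul.1 h).1), if_neg h1, zero_mul]
  · rw [if_neg (fun h => h1 (Nat.odd_mul.1 h).1), if_neg h1, zero_mul]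

lemma abs_ch_le (m : ℤ) (n : ℕ) : |ch m n| ≤ 1 := by
  unfold ch
  split_ifs
  · rcases jacobiSym.trichotomy m n with h | h | h <;> rw [h] <;> norm_num
  · norm_num

lemma ch_mod {m : ℤ} (hm : m ≠ 0) (n : ℕ) : ch m (n % (4 * m.natAbs)) = ch m n := by
  have h4 : 0 < 4 * m.natAbs := Nat.mul_pos (by norm_num) (Int.natAbs_pos.2 hm)
  have hev : Even (4 * m.natAbs) := Even.mul_right (by decide) _
  unfold ch
  by_cases h : Odd n
  · rw [if_pos h, if_pos (h.mod_even hev), ← jacobiSym.mod_right m h]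
  · rw [if_neg h, if_neg]
    intro h1
    apply h
    rw [Nat.odd_iff] at h1 ⊢
    rw [Nat.mod_mod_of_dvd n hev.two_dvd] at h1
    exact h1

lemma ch_add {m : ℤ} (hm : m ≠ 0) (n : ℕ) : ch m (4 * m.natAbs + n) = ch m n := by
  rw [← ch_mod hm (4 * m.natAbs + n), Nat.add_mod_left, ch_mod hm]

/-- The sum over a period is zero. -/
lemma sum_period {m : ℤ} (hm : m ≠ 0) {n₀ : ℕ} (hn₀ : ch m n₀ = -1) :
    ∑ n ∈ range (4 * m.natAbs), ch m n = 0 := by
  obtain ⟨q, hq⟩ : ∃ q, q = 4 * m.natAbs := ⟨_, rfl⟩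
  have hq0 : 0 < q := by rw [hq]; exact Nat.mul_pos (by norm_num) (Int.natAbs_pos.2 hm)
  have hne : NeZero q := ⟨hq0.ne'⟩
  have hodd : Odd n₀ := by
    by_contra h
    unfold ch at hn₀
    rw [if_neg h] at hn₀
    norm_num at hn₀
  have hcop : Nat.Coprime n₀ q := by
    rw [ch_odd m hodd] at hn₀
    have h1 : m.gcd n₀ = 1 := by
      by_contra hne
      have h2 := (jacobiSym.eq_zero_iff (a := m) (b := n₀)).2 ⟨hodd.pos.ne', hne⟩
      rw [h2] at hn₀
      norm_num at hn₀
    rw [hq]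
    apply Nat.Coprime.mul_right
    · have h2 : Nat.Coprime n₀ 2 := hodd.coprime_two_right
      have h3 : (4 : ℕ) = 2 ^ 2 := by norm_num
      rw [h3]
      exact h2.pow_right 2
    · rw [Int.gcd_eq_natAbs, Int.natAbs_natCast] at h1
      exact Nat.Coprime.symm h1
  have hsum : ∑ n ∈ range q, ch m n = ∑ x : ZMod q, ch m x.val := by
    symm
    apply Finset.sum_bij (fun (x : ZMod q) _ => x.val)
    · intro x _; rw [Finset.mem_range]; exact ZMod.val_lt x
    · intro x _ y _ h; exact ZMod.val_injective q h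
    · intro n hn
      exact ⟨(n : ZMod q), Finset.mem_univ _, ZMod.val_cast_of_lt (Finset.mem_range.1 hn)⟩
    · intro x _; rfl
  have h1 : ∑ x : ZMod q, ch m x.val = ∑ x : ZMod q, ch m ((ZMod.unitOfCoprime n₀ hcop : ZMod q) * x).val :=
    (Equiv.sum_comp (Units.mulLeft (ZMod.unitOfCoprime n₀ hcop)) fun x : ZMod q => ch m x.val).symm
  have h2 : ∀ x : ZMod q, ch m ((ZMod.unitOfCoprime n₀ hcop : ZMod q) * x).val =
      -ch m x.val := by
    intro x
    have h3 : ∀ y : ℕ, ch m (y % q) = ch m y := fun y => by rw [hq]; exact ch_mod hm y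
    rw [ZMod.coe_unitOfCoprime, ZMod.val_mul, ZMod.val_natCast, Nat.mod_mul_mod, h3,
      ch_mul_right, hn₀]
    ring
  rw [← hq, hsum]
  simp_rw [h2] at h1
  rw [Finset.sum_neg_distrib] at h1
  linarith

lemma sum_range_le {m : ℤ} (hm : m ≠ 0) {n₀ : ℕ} (hn₀ : ch m n₀ = -1) (N : ℕ) :
    |∑ n ∈ range N, ch m n| ≤ 4 * m.natAbs := by
  obtain ⟨q, hq⟩ : ∃ q, q = 4 * m.natAbs := ⟨_, rfl⟩
  have hq0 : 0 < q := by rw [hq]; exact Nat.mul_pos (by norm_num) (Int.natAbs_pos.2 hm)
  have h1 : ∀ t r : ℕ, ∑ n ∈ range (q * t + r), ch m n = ∑ n ∈ range r, ch m n := by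
    intro t r
    induction t with
    | zero => rw [mul_zero, zero_add]
    | succ t ih =>
      have h2 : q * (t + 1) + r = q + (q * t + r) := by ring
      rw [h2, Finset.sum_range_add, hq, sum_period hm hn₀, zero_add]
      simp_rw [ch_add hm]
      rw [← hq]
      exact ih
  have h2 : N = q * (N / q) + N % q := (Nat.div_add_mod N q).symm
  rw [h2, h1]
  have h3 : N % q < q := Nat.mod_lt N hq0
  calc |∑ n ∈ range (N % q), ch m n| ≤ ∑ n ∈ range (N % q), |ch m n| :=
        Finset.abs_sum_le_sum_abs _ _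
    _ ≤ ∑ n ∈ range (N % q), (1 : ℝ) := Finset.sum_le_sum fun n _ => abs_ch_le m n
    _ = ((N % q : ℕ) : ℝ) := by rw [Finset.sum_const, Finset.card_range, nsmul_eq_mul, mul_one]
    _ ≤ (q : ℝ) := by exact_mod_cast h3.le
    _ = 4 * (m.natAbs : ℝ) := by rw [hq]; push_cast; ring

/-- Sums in progressions. -/
lemma sum_dvd_le {m : ℤ} (hm : m ≠ 0) {n₀ : ℕ} (hn₀ : ch m n₀ = -1) (N D : ℕ) (hD : 1 ≤ D) :
    |∑ n ∈ (Icc 1 N).filter (D ∣ ·), ch m n| ≤ 4 * m.natAbs := by
  have h1 : ∑ n ∈ (Icc 1 N).filter (D ∣ ·), ch m n =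
      ch m D * ∑ k ∈ range (N / D + 1), ch m k := by
    rw [Finset.mul_sum, Finset.sum_range_succ']
    have h0 : ch m 0 = 0 := by unfold ch; rw [if_neg]; decide
    rw [h0, mul_zero, add_zero]
    symm
    apply Finset.sum_bij (fun k _ => D * (k + 1))
    · intro k hk
      rw [Finset.mem_range] at hk
      rw [Finset.mem_filter, Finset.mem_Icc]
      refine ⟨⟨Nat.mul_pos hD (Nat.succ_pos k), ?_⟩, dvd_mul_right _ _⟩
      calc D * (k + 1) ≤ D * (N / D) := Nat.mul_le_mul_left D hk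
        _ ≤ N := Nat.mul_div_le N D
    · intro k _ k' _ h
      have := Nat.eq_of_mul_eq_mul_left hD h
      omega
    · intro n hn
      rw [Finset.mem_filter, Finset.mem_Icc] at hn
      obtain ⟨k, rfl⟩ := hn.2
      have hk : 1 ≤ k := by
        rcases Nat.eq_zero_or_pos k with h | h
        · rw [h, mul_zero] at hn; omega
        · exact h
      refine ⟨k - 1, ?_, ?_⟩
      · rw [Finset.mem_range]
        have h2 : k ≤ N / D := by
          rw [Nat.le_div_iff_mul_le hD, mul_comm]; exact hn.1.2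
        omega
      · rw [Nat.sub_add_cancel hk]
    · intro k _
      rw [← ch_mul_right]
  rw [h1, abs_mul]
  have h2 := sum_range_le hm hn₀ (N / D + 1)
  calc |ch m D| * |∑ k ∈ range (N / D + 1), ch m k| ≤ 1 * (4 * m.natAbs) :=
        mul_le_mul (abs_ch_le m D) h2 (abs_nonneg _) zero_le_one
    _ = _ := one_mul _


/-- Two different squarefree integers give different characters. -/
lemma exists_neg {a b : ℤ} (ha : Squarefree a) (hb : Squarefree b) (hab : a ≠ b) :
    ∃ n, ch (a * b) n = -1 := by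
  classical
  have ha0 : a ≠ 0 := ha.ne_zero
  have hb0 : b ≠ 0 := hb.ne_zero
  -- the case of an odd prime dividing one of the numbers
  have key : ∀ {a b : ℤ}, Squarefree a → b ≠ 0 → ∀ q : ℕ, q.Prime → q ≠ 2 → (q : ℤ) ∣ a →
      ¬ (q : ℤ) ∣ b → ∃ n, ch (a * b) n = -1 := by
    intro a b ha hb0 q hq hq2 hqa hqb
    have hF : Fact q.Prime := ⟨hq⟩
    have hqp : Prime (q : ℤ) := Nat.prime_iff_prime_int.1 hq
    obtain ⟨a', rfl⟩ := hqa
    have ha0 : (q : ℤ) * a' ≠ 0 := ha.ne_zero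
    have ha'0 : a' ≠ 0 := right_ne_zero_of_mul ha0
    have hqa' : ¬ (q : ℤ) ∣ a' := by
      rintro ⟨c, rfl⟩
      have h1 : (q : ℤ) * q ∣ q * (q * c) := ⟨c, by ring⟩
      exact hqp.not_isUnit (ha _ h1)
    obtain ⟨u, hu⟩ : ∃ u, u = a' * b := ⟨_, rfl⟩
    have hu0 : u ≠ 0 := by rw [hu]; exact mul_ne_zero ha'0 hb0
    have hqu : ¬ (q : ℤ) ∣ u := by
      rw [hu]
      intro h
      rcases hqp.dvd_or_dvd h with h | h
      · exact hqa' h
      · exact hqb h
    have hodd : Odd q := hq.odd_of_ne_two hq2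
    have hcop : Nat.Coprime (4 * u.natAbs) q := by
      apply Nat.Coprime.symm
      rw [Nat.Prime.coprime_iff_not_dvd hq]
      intro h
      rcases (Nat.Prime.dvd_mul hq).1 h with h | h
      · have h3 : (4 : ℕ) = 2 ^ 2 := by norm_num
        rw [h3] at h
        exact hq2 ((Nat.prime_dvd_prime_iff_eq hq Nat.prime_two).1 (hq.dvd_of_dvd_pow h))
      · exact hqu (Int.natCast_dvd.2 h)
    obtain ⟨x, hx⟩ := FiniteField.exists_nonsquare (F := ZMod q) (by
      rw [ZMod.ringChar_zmod_n]; exact hq2)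
    obtain ⟨n, hn1, hn2⟩ := Nat.chineseRemainder hcop 1 x.val
    have h4u : 1 < 4 * u.natAbs := by
      have := Int.natAbs_pos.2 hu0
      omega
    have hn4 : n % 4 = 1 := by
      have h1 : n ≡ 1 [MOD 4] := hn1.of_mul_right _
      exact h1
    have hnodd : Odd n := by rw [Nat.odd_iff]; omega
    refine ⟨n, ?_⟩
    have h1 : (q : ℤ) * a' * b = q * u := by rw [hu]; ring
    rw [h1, ch_mul_left]
    have h2 : ch u n = 1 := by
      rw [← ch_mod hu0]
      have h3 : n % (4 * u.natAbs) = 1 := by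
        have := hn1
        unfold Nat.ModEq at this
        rw [this, Nat.mod_eq_of_lt h4u]
      rw [h3, ch_odd _ (by decide), jacobiSym.one_right]
      norm_num
    have h3 : ch q n = -1 := by
      rw [ch_odd _ hnodd, jacobiSym.quadratic_reciprocity_one_mod_four' hodd hn4,
        ← jacobiSym.legendreSym.to_jacobiSym]
      have h4 : legendreSym q n = -1 := by
        rw [legendreSym.eq_neg_one_iff]
        have h5 : ((n : ℤ) : ZMod q) = x := by
          push_cast
          rw [← ZMod.natCast_zmod_val x]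
          exact (ZMod.natCast_eq_natCast_iff _ _ _).2 hn2
        rw [h5]
        exact hx
      rw [h4]
      norm_num
    rw [h2, h3]
    norm_num
  by_cases h1 : ∃ q : ℕ, q.Prime ∧ q ≠ 2 ∧ (q : ℤ) ∣ a ∧ ¬ (q : ℤ) ∣ b
  · obtain ⟨q, h2, h3, h4, h5⟩ := h1
    exact key ha hb0 q h2 h3 h4 h5
  by_cases h2 : ∃ q : ℕ, q.Prime ∧ q ≠ 2 ∧ (q : ℤ) ∣ b ∧ ¬ (q : ℤ) ∣ a
  · obtain ⟨q, h3, h4, h5, h6⟩ := h2
    rw [mul_comm]
    exact key hb ha0 q h3 h4 h5 h6
  push Not at h1 h2
  -- the same odd primes divide the two numbers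
  obtain ⟨c, hc, hcodd⟩ : ∃ c : ℕ, (c = ∏ p ∈ a.natAbs.primeFactors.erase 2, p) ∧ Odd c := by
    refine ⟨_, rfl, ?_⟩
    refine Finset.prod_induction _ Odd (fun x y hx hy => hx.mul hy) odd_one fun p hp => ?_
    rw [Finset.mem_erase] at hp
    exact (Nat.prime_of_mem_primeFactors hp.2).odd_of_ne_two hp.1
  have hset : a.natAbs.primeFactors.erase 2 = b.natAbs.primeFactors.erase 2 := by
    ext p
    simp only [Finset.mem_erase, Nat.mem_primeFactors]
    constructor
    · rintro ⟨h3, h4, h5, _⟩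
      exact ⟨h3, h4, Int.natCast_dvd.1 (h1 p h4 h3 (Int.natCast_dvd.2 h5)),
        Int.natAbs_ne_zero.2 hb0⟩
    · rintro ⟨h3, h4, h5, _⟩
      exact ⟨h3, h4, Int.natCast_dvd.1 (h2 p h4 h3 (Int.natCast_dvd.2 h5)),
        Int.natAbs_ne_zero.2 ha0⟩
  have hform : ∀ {x : ℤ}, Squarefree x → (c = ∏ p ∈ x.natAbs.primeFactors.erase 2, p) →
      x = c ∨ x = -c ∨ x = 2 * c ∨ x = -(2 * c) := by
    intro x hx hcx
    have h3 : x.natAbs = c ∨ x.natAbs = 2 * c := by
      have h4 := Nat.prod_primeFactors_of_squarefree (Int.squarefree_natAbs.2 hx)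
      by_cases h5 : 2 ∈ x.natAbs.primeFactors
      · right
        rw [← Finset.mul_prod_erase _ _ h5, ← hcx] at h4
        exact h4.symm
      · left
        rw [← Finset.erase_eq_of_notMem h5] at h4
        rw [← hcx] at h4
        exact h4.symm
    rcases Int.natAbs_eq x with h5 | h5 <;> rcases h3 with h6 | h6 <;> rw [h6] at h5
    · exact Or.inl h5
    · exact Or.inr (Or.inr (Or.inl (by rw [h5]; push_cast; ring)))
    · exact Or.inr (Or.inl h5)
    · exact Or.inr (Or.inr (Or.inr (by rw [h5]; push_cast; ring)))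
  have hc0 : 0 < c := hcodd.pos
  have hcc : ∀ n : ℕ, Odd n → Nat.Coprime n c → ch c n * ch c n = 1 := by
    intro n hn hcop
    rw [ch_odd _ hn]
    have h3 : ((c : ℤ)).gcd n = 1 := by
      rw [Int.gcd_natCast_natCast]
      exact Nat.Coprime.symm hcop
    have h4 := jacobiSym.sq_one h3
    rw [sq] at h4
    exact_mod_cast h4
  -- the two test numbers
  have hn1 : ∀ u : ℤ, (u = -1 ∨ u = -4) → ch (u * (c * c)) (4 * c - 1) = -1 := by
    intro u hu
    have hodd : Odd (4 * c - 1) := by rw [Nat.odd_iff]; omega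
    have hcop : Nat.Coprime (4 * c - 1) c := by
      rw [Nat.coprime_comm, Nat.coprime_iff_gcd_eq_one]
      have h3 : (Nat.gcd c (4 * c - 1)) ∣ 1 := by
        have h4 : Nat.gcd c (4 * c - 1) ∣ 4 * c := (Nat.gcd_dvd_left _ _).mul_left 4
        have h5 := Nat.gcd_dvd_right c (4 * c - 1)
        have h6 := Nat.dvd_sub h4 h5
        have h7 : 4 * c - (4 * c - 1) = 1 := by omega
        rwa [h7] at h6
      exact Nat.dvd_one.1 h3
    rw [ch_mul_left, ch_mul_left, hcc _ hodd hcop, mul_one, ch_odd _ hodd]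
    have h3 : jacobiSym (-1) (4 * c - 1) = -1 := by
      rw [jacobiSym.at_neg_one hodd, ZMod.χ₄_nat_three_mod_four (by omega)]
    rcases hu with rfl | rfl
    · rw [h3]; norm_num
    · have h4 : (-4 : ℤ) = -1 * 4 := by norm_num
      rw [h4, jacobiSym.mul_left, h3, jacobiSym.at_four hodd]; norm_num
  have hn2 : ∀ u : ℤ, (u = 2 ∨ u = -2) → ch (u * (c * c)) (4 * c + 1) = -1 := by
    intro u hu
    have hodd : Odd (4 * c + 1) := by rw [Nat.odd_iff]; omega
    have hcop : Nat.Coprime (4 * c + 1) c := by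
      rw [Nat.coprime_comm, Nat.coprime_iff_gcd_eq_one]
      have h3 : (Nat.gcd c (4 * c + 1)) ∣ 1 := by
        have h4 : Nat.gcd c (4 * c + 1) ∣ 4 * c := (Nat.gcd_dvd_left _ _).mul_left 4
        have h5 := Nat.gcd_dvd_right c (4 * c + 1)
        have h6 := Nat.dvd_sub h5 h4
        have h7 : 4 * c + 1 - 4 * c = 1 := by omega
        rwa [h7] at h6
      exact Nat.dvd_one.1 h3
    rw [ch_mul_left, ch_mul_left, hcc _ hodd hcop, mul_one, ch_odd _ hodd]
    have h8 : (4 * c + 1) % 8 = 5 := by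
      obtain ⟨j, rfl⟩ := hcodd
      omega
    rcases hu with rfl | rfl
    · rw [jacobiSym.at_two hodd, ZMod.χ₈_nat_mod_eight, h8]
      have : ZMod.χ₈ ((5 : ℕ) : ZMod 8) = -1 := by decide
      rw [this]; norm_num
    · have h9 : (-2 : ℤ) = -1 * 2 := by norm_num
      rw [h9, jacobiSym.mul_left, jacobiSym.at_neg_one hodd,
        ZMod.χ₄_nat_one_mod_four (by omega), jacobiSym.at_two hodd, ZMod.χ₈_nat_mod_eight, h8]
      have : ZMod.χ₈ ((5 : ℕ) : ZMod 8) = -1 := by decide
      rw [this]; norm_num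
  rcases hform ha hc with h3 | h3 | h3 | h3 <;>
    rcases hform hb (hset ▸ hc) with h4 | h4 | h4 | h4
  · exact absurd (h3.trans h4.symm) hab
  · exact ⟨_, by have := hn1 (-1) (Or.inl rfl); rw [h3, h4]; convert this using 2; ring⟩
  · exact ⟨_, by have := hn2 2 (Or.inl rfl); rw [h3, h4]; convert this using 2; ring⟩
  · exact ⟨_, by have := hn2 (-2) (Or.inr rfl); rw [h3, h4]; convert this using 2; ring⟩
  · exact ⟨_, by have := hn1 (-1) (Or.inl rfl); rw [h3, h4]; convert this using 2; ring⟩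
  · exact absurd (h3.trans h4.symm) hab
  · exact ⟨_, by have := hn2 (-2) (Or.inr rfl); rw [h3, h4]; convert this using 2; ring⟩
  · exact ⟨_, by have := hn2 2 (Or.inl rfl); rw [h3, h4]; convert this using 2; ring⟩
  · exact ⟨_, by have := hn2 2 (Or.inl rfl); rw [h3, h4]; convert this using 2; ring⟩
  · exact ⟨_, by have := hn2 (-2) (Or.inr rfl); rw [h3, h4]; convert this using 2; ring⟩
  · exact absurd (h3.trans h4.symm) hab
  · exact ⟨_, by have := hn1 (-4) (Or.inr rfl); rw [h3, h4]; convert this using 2; ring⟩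
  · exact ⟨_, by have := hn2 (-2) (Or.inr rfl); rw [h3, h4]; convert this using 2; ring⟩
  · exact ⟨_, by have := hn2 2 (Or.inl rfl); rw [h3, h4]; convert this using 2; ring⟩
  · exact ⟨_, by have := hn1 (-4) (Or.inr rfl); rw [h3, h4]; convert this using 2; ring⟩
  · exact absurd (h3.trans h4.symm) hab

end Pool.Agent.Helper29.QT
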