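import Pool.Agent.Helper29.QT.Major
import Pool.Agent.Helper29.QT.Jac

set_option autoImplicit false

namespace Pool.Agent.Helper29.QT

open Finset

/-- The primes up to `T`. -/
def PR (T : ℕ) : Finset ℕ := (Icc 1 T).filter Nat.Prime

/-- The primes between `z` and `T`. -/
def PRz (z T : ℕ) : Finset ℕ := (PR T).filter (z < ·)

lemma sum_log_PR (T : ℕ) : ∑ p ∈ PR T, Real.log p ≤ Real.log 4 * T := by
  have h1 := Chebyshev.theta_le_log4_mul_x (x := T) (Nat.cast_nonneg T)
  have h2 : Chebyshev.theta T = ∑ p ∈ PR T, Real.log p := by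
    unfold Chebyshev.theta PR
    rw [Nat.floor_natCast]
    apply Finset.sum_congr _ fun _ _ => rfl
    ext p
    simp [Finset.mem_Ioc, Finset.mem_Icc, Nat.lt_iff_add_one_le]
  rw [← h2]
  exact h1

lemma log_nonneg' (p : ℕ) : 0 ≤ Real.log (p : ℝ) := Real.log_natCast_nonneg p

/-- The twisted sum. -/
noncomputable def SS (c : ℕ → ℝ) (z T : ℕ) (a : ℤ) : ℝ :=
  ∑ p ∈ PRz z T, ch a p * (c p * Real.log p)

/-- The Bessel inequality for quadratic characters. -/
lemma bessel {c : ℕ → ℝ} {M : ℝ} (hc : ∀ p : ℕ, p.Prime → |c p| ≤ M) {z T : ℕ}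
    (hz : 1 ≤ z) (hT : T + 1 ≤ (z + 1) ^ 5) (A : Finset ℤ) (hA : ∀ a ∈ A, Squarefree a)
    {Q : ℝ} (hQ : ∀ a ∈ A, ∀ b ∈ A, 4 * ((a * b).natAbs : ℝ) ≤ Q) :
    ∑ a ∈ A, SS c z T a ^ 2 ≤
      M ^ 2 * (Real.log 4 * T) * (5 * T + Real.log T * ((z : ℝ) ^ 4 * (1 + A.card * Q))) := by
  classical
  obtain ⟨X, hX⟩ : ∃ X, X = ∑ a ∈ A, SS c z T a ^ 2 := ⟨_, rfl⟩
  have hX0 : 0 ≤ X := by rw [hX]; exact Finset.sum_nonneg fun _ _ => sq_nonneg _
  rw [← hX]
  rcases Nat.eq_zero_or_pos T with rfl | hT0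
  · have h1 : X = 0 := by
      rw [hX]
      apply Finset.sum_eq_zero
      intro a _
      unfold SS PRz PR
      simp
    rw [h1]
    simp
  have hT1 : (1 : ℝ) ≤ T := by exact_mod_cast hT0
  have hlT : 0 ≤ Real.log T := log_nonneg' T
  -- the vector
  obtain ⟨F, hF⟩ : ∃ F : ℕ → ℝ, F = fun n => ∑ a ∈ A, SS c z T a * ch a n := ⟨_, rfl⟩
  have h1 : X = ∑ p ∈ PRz z T, (c p * Real.sqrt (Real.log p)) * (Real.sqrt (Real.log p) * F p) := by
    rw [hX]
    have h2 : ∀ a ∈ A, SS c z T a ^ 2 =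
        ∑ p ∈ PRz z T, SS c z T a * (ch a p * (c p * Real.log p)) := by
      intro a _
      rw [sq, ← Finset.mul_sum]
      rfl
    rw [Finset.sum_congr rfl h2, Finset.sum_comm]
    refine Finset.sum_congr rfl fun p _ => ?_
    have h3 : (c p * Real.sqrt (Real.log p)) * (Real.sqrt (Real.log p) * F p) =
        (Real.sqrt (Real.log p) * Real.sqrt (Real.log p)) * (c p * F p) := by ring
    rw [h3, Real.mul_self_sqrt (log_nonneg' p), hF, Finset.mul_sum, Finset.mul_sum]
    exact Finset.sum_congr rfl fun a _ => by ring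
  have h2 : X ^ 2 ≤ (∑ p ∈ PRz z T, (c p * Real.sqrt (Real.log p)) ^ 2) *
      (∑ p ∈ PRz z T, (Real.sqrt (Real.log p) * F p) ^ 2) := by
    rw [h1]
    exact Finset.sum_mul_sq_le_sq_mul_sq _ _ _
  have h3 : ∑ p ∈ PRz z T, (c p * Real.sqrt (Real.log p)) ^ 2 ≤ M ^ 2 * (Real.log 4 * T) := by
    calc _ ≤ ∑ p ∈ PRz z T, M ^ 2 * Real.log p := by
          refine Finset.sum_le_sum fun p hp => ?_
          rw [mul_pow, Real.sq_sqrt (log_nonneg' p)]
          apply mul_le_mul_of_nonneg_right _ (log_nonneg' p)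
          rw [← sq_abs (c p)]
          apply pow_le_pow_left₀ (abs_nonneg _)
          apply hc
          exact (Finset.mem_filter.1 (Finset.mem_filter.1 hp).1).2
      _ = M ^ 2 * ∑ p ∈ PRz z T, Real.log p := by rw [Finset.mul_sum]
      _ ≤ M ^ 2 * ∑ p ∈ PR T, Real.log p := by
          apply mul_le_mul_of_nonneg_left _ (sq_nonneg M)
          exact Finset.sum_le_sum_of_subset_of_nonneg (Finset.filter_subset _ _)
            fun p _ _ => log_nonneg' p
      _ ≤ _ := mul_le_mul_of_nonneg_left (sum_log_PR T) (sq_nonneg M)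
  -- the second factor
  have h4 : ∑ p ∈ PRz z T, (Real.sqrt (Real.log p) * F p) ^ 2 ≤
      Real.log T * ∑ n ∈ Icc 1 T, ww z n * F n ^ 2 := by
    calc _ ≤ ∑ p ∈ PRz z T, Real.log T * (ww z p * F p ^ 2) := by
          refine Finset.sum_le_sum fun p hp => ?_
          have hp1 := Finset.mem_filter.1 hp
          have hp2 := Finset.mem_filter.1 hp1.1
          have hp3 := Finset.mem_Icc.1 hp2.1
          rw [mul_pow, Real.sq_sqrt (log_nonneg' p), ww_prime hz hp2.2 hp1.2, one_mul]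
          apply mul_le_mul_of_nonneg_right _ (sq_nonneg _)
          exact Real.log_le_log (by exact_mod_cast hp3.1) (by exact_mod_cast hp3.2)
      _ = Real.log T * ∑ p ∈ PRz z T, ww z p * F p ^ 2 := by rw [Finset.mul_sum]
      _ ≤ _ := by
          apply mul_le_mul_of_nonneg_left _ hlT
          apply Finset.sum_le_sum_of_subset_of_nonneg
          · intro p hp
            exact (Finset.mem_filter.1 (Finset.mem_filter.1 hp).1).1
          · intro n _ _
            exact mul_nonneg (ww_nonneg z n) (sq_nonneg _)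
  have h5 : ∑ n ∈ Icc 1 T, ww z n * F n ^ 2 = ∑ a ∈ A, ∑ b ∈ A,
      SS c z T a * SS c z T b * ∑ n ∈ Icc 1 T, ww z n * ch (a * b) n := by
    have h6 : ∀ n ∈ Icc 1 T, ww z n * F n ^ 2 = ∑ a ∈ A, ∑ b ∈ A,
        SS c z T a * SS c z T b * (ww z n * ch (a * b) n) := by
      intro n _
      rw [hF, sq, Finset.sum_mul_sum, Finset.mul_sum]
      refine Finset.sum_congr rfl fun a _ => ?_
      rw [Finset.mul_sum]
      refine Finset.sum_congr rfl fun b _ => ?_
      rw [ch_mul_left]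
      ring
    rw [Finset.sum_congr rfl h6, Finset.sum_comm]
    refine Finset.sum_congr rfl fun a _ => ?_
    rw [Finset.sum_comm]
    refine Finset.sum_congr rfl fun b _ => ?_
    rw [Finset.mul_sum]
  obtain ⟨W, hW⟩ : ∃ W : ℝ, W = T / GG z + (z : ℝ) ^ 4 := ⟨_, rfl⟩
  have hdiag : ∀ a : ℤ, ∑ n ∈ Icc 1 T, ww z n * ch (a * a) n ≤ W := by
    intro a
    refine le_trans (Finset.sum_le_sum (g := fun n => ww z n) fun n _ => ?_)
      (hW ▸ sum_ww_one hz T)
    have h7 : ch (a * a) n ≤ 1 := (le_abs_self _).trans (abs_ch_le _ _)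
    calc ww z n * ch (a * a) n ≤ ww z n * 1 := mul_le_mul_of_nonneg_left h7 (ww_nonneg z n)
      _ = ww z n := mul_one _
  have hoff : ∀ a ∈ A, ∀ b ∈ A, a ≠ b → |∑ n ∈ Icc 1 T, ww z n * ch (a * b) n| ≤
      (z : ℝ) ^ 4 * Q := by
    intro a ha b hb hab
    obtain ⟨n₀, hn₀⟩ := exists_neg (hA a ha) (hA b hb) hab
    have hab0 : a * b ≠ 0 := mul_ne_zero (hA a ha).ne_zero (hA b hb).ne_zero
    apply sum_ww_small hz
    intro D hD
    exact (sum_dvd_le hab0 hn₀ T D hD).trans (hQ a ha b hb)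
  have hzQ : ∀ a ∈ A, ∀ b ∈ A, (0 : ℝ) ≤ (z : ℝ) ^ 4 * Q := by
    intro a ha b hb
    have := hQ a ha b hb
    have h0 : (0 : ℝ) ≤ 4 * ((a * b).natAbs : ℝ) := by positivity
    exact mul_nonneg (by positivity) (h0.trans this)
  have h6 : ∑ n ∈ Icc 1 T, ww z n * F n ^ 2 ≤ X * W + (z : ℝ) ^ 4 * Q * (A.card * X) := by
    rw [h5]
    have h7 : ∀ a ∈ A, ∀ b ∈ A,
        SS c z T a * SS c z T b * ∑ n ∈ Icc 1 T, ww z n * ch (a * b) n ≤
        (if a = b then SS c z T a ^ 2 * W else 0) +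
          (z : ℝ) ^ 4 * Q * (|SS c z T a| * |SS c z T b|) := by
      intro a ha b hb
      have h0 := mul_nonneg (hzQ a ha b hb) (mul_nonneg (abs_nonneg (SS c z T a))
        (abs_nonneg (SS c z T b)))
      split_ifs with hab
      · subst hab
        have h8 := mul_le_mul_of_nonneg_left (hdiag a) (sq_nonneg (SS c z T a))
        rw [← sq]
        linarith
      · have h8 := le_abs_self (SS c z T a * SS c z T b * ∑ n ∈ Icc 1 T, ww z n * ch (a * b) n)
        rw [abs_mul, abs_mul] at h8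
        have h9 := mul_le_mul_of_nonneg_left (hoff a ha b hb hab)
          (mul_nonneg (abs_nonneg (SS c z T a)) (abs_nonneg (SS c z T b)))
        linarith
    refine (Finset.sum_le_sum fun a ha => Finset.sum_le_sum fun b hb => h7 a ha b hb).trans ?_
    simp_rw [Finset.sum_add_distrib, ← Finset.mul_sum]
    have h8 : ∑ a ∈ A, ∑ b ∈ A, (if a = b then SS c z T a ^ 2 * W else 0) = X * W := by
      rw [hX, Finset.sum_mul]
      refine Finset.sum_congr rfl fun a ha => ?_
      rw [Finset.sum_ite_eq, if_pos ha]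
    rw [h8, ← Finset.sum_mul]
    have h9 : (∑ a ∈ A, |SS c z T a|) * ∑ a ∈ A, |SS c z T a| ≤ A.card * X := by
      rw [← sq, hX]
      refine (sq_sum_le_card_mul_sum_sq).trans (le_of_eq ?_)
      simp_rw [sq_abs]
    have hzQ0 : A.Nonempty → (0 : ℝ) ≤ (z : ℝ) ^ 4 * Q := fun ⟨a, ha⟩ => hzQ a ha a ha
    rcases A.eq_empty_or_nonempty with rfl | hne
    · simp
    · have := mul_le_mul_of_nonneg_left h9 (hzQ0 hne)
      linarith
  -- the logarithm
  have h7 : Real.log T * W ≤ 5 * T + Real.log T * (z : ℝ) ^ 4 := by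
    have hG := GG_pos hz
    have h8 : Real.log T ≤ 5 * GG z := by
      have h9 : Real.log T ≤ Real.log (((z : ℝ) + 1) ^ 5) := by
        apply Real.log_le_log (by linarith)
        have : ((T : ℕ) : ℝ) ≤ (((z + 1) ^ 5 : ℕ) : ℝ) := by exact_mod_cast (by omega)
        push_cast at this
        exact this
      rw [Real.log_pow] at h9
      have h10 := log_le_GG z
      push_cast at h9
      linarith
    rw [hW, mul_add]
    have h11 : Real.log T * (T / GG z) ≤ 5 * T := by
      rw [← mul_div_assoc, div_le_iff₀ hG]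
      have := mul_le_mul_of_nonneg_right h8 (by linarith : (0 : ℝ) ≤ T)
      linarith
    linarith
  have h8 : X ^ 2 ≤ X * (M ^ 2 * (Real.log 4 * T) *
      (5 * T + Real.log T * ((z : ℝ) ^ 4 * (1 + A.card * Q)))) := by
    have hL : 0 ≤ M ^ 2 * (Real.log 4 * T) :=
      mul_nonneg (sq_nonneg M) (mul_nonneg (Real.log_nonneg (by norm_num)) (by linarith))
    calc X ^ 2 ≤ _ := h2
      _ ≤ (M ^ 2 * (Real.log 4 * T)) * (Real.log T *
          (X * W + (z : ℝ) ^ 4 * Q * (A.card * X))) := by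
          apply mul_le_mul h3 _ (Finset.sum_nonneg fun _ _ => sq_nonneg _) hL
          exact h4.trans (mul_le_mul_of_nonneg_left h6 hlT)
      _ = X * (M ^ 2 * (Real.log 4 * T) * (Real.log T * W +
          Real.log T * ((z : ℝ) ^ 4 * (A.card * Q)))) := by ring
      _ ≤ _ := by
          apply mul_le_mul_of_nonneg_left _ hX0
          apply mul_le_mul_of_nonneg_left _ hL
          have : Real.log T * ((z : ℝ) ^ 4 * (1 + A.card * Q)) =
            Real.log T * (z : ℝ) ^ 4 + Real.log T * ((z : ℝ) ^ 4 * (A.card * Q)) := by ring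
          linarith
  rcases hX0.eq_or_lt with h9 | h9
  · rw [← h9]
    have hL : 0 ≤ M ^ 2 * (Real.log 4 * T) :=
      mul_nonneg (sq_nonneg M) (mul_nonneg (Real.log_nonneg (by norm_num)) (by linarith))
    apply mul_nonneg hL
    rcases A.eq_empty_or_nonempty with rfl | ⟨a, ha⟩
    · simp only [Finset.card_empty, Nat.cast_zero, zero_mul, add_zero, mul_one]
      positivity
    · have h10 : (0 : ℝ) ≤ Q := by
        have := hQ a ha a ha
        have h0 : (0 : ℝ) ≤ 4 * ((a * a).natAbs : ℝ) := by positivity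
        exact h0.trans this
      positivity
  · rw [sq] at h8
    exact le_of_mul_le_mul_left h8 h9

end Pool.Agent.Helper29.QT
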