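import Pool.Agent.Helper29.QT.Bessel

set_option autoImplicit false

namespace Pool.Agent.Helper29.QT

open Finset Filter Topology

/-- The level of the sieve. -/
noncomputable def zz (T : ℕ) : ℕ := ⌊(T : ℝ) ^ ((1 : ℝ) / 5)⌋₊

lemma zz_le (T : ℕ) : (zz T : ℝ) ≤ (T : ℝ) ^ ((1 : ℝ) / 5) :=
  Nat.floor_le (Real.rpow_nonneg (Nat.cast_nonneg T) _)

lemma one_le_zz {T : ℕ} (hT : 1 ≤ T) : 1 ≤ zz T := by
  unfold zz
  rw [Nat.one_le_floor_iff]
  exact Real.one_le_rpow (by exact_mod_cast hT) (by norm_num)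

lemma lt_zz (T : ℕ) : T + 1 ≤ (zz T + 1) ^ 5 := by
  have h1 : (T : ℝ) ^ ((1 : ℝ) / 5) < (zz T : ℝ) + 1 := Nat.lt_floor_add_one _
  have h2 : ((T : ℝ) ^ ((1 : ℝ) / 5)) ^ 5 < ((zz T : ℝ) + 1) ^ 5 :=
    pow_lt_pow_left₀ h1 (Real.rpow_nonneg (Nat.cast_nonneg T) _) (by norm_num)
  rw [← Real.rpow_natCast, ← Real.rpow_mul (Nat.cast_nonneg T)] at h2
  norm_num at h2
  exact_mod_cast h2

lemma zz_pow_le (T : ℕ) : (zz T : ℝ) ^ 4 ≤ (T : ℝ) ^ ((4 : ℝ) / 5) := by
  calc (zz T : ℝ) ^ 4 ≤ ((T : ℝ) ^ ((1 : ℝ) / 5)) ^ 4 :=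
        pow_le_pow_left₀ (Nat.cast_nonneg _) (zz_le T) 4
    _ = (T : ℝ) ^ ((4 : ℝ) / 5) := by
        rw [← Real.rpow_natCast, ← Real.rpow_mul (Nat.cast_nonneg T)]
        norm_num

lemma tendsto_small (K : ℝ) : Tendsto (fun T : ℕ => Real.log T * ((zz T : ℝ) ^ 4 * K) / T)
    atTop (𝓝 0) := by
  have h1 : Tendsto (fun x : ℝ => Real.log x / x ^ ((1 : ℝ) / 5)) atTop (𝓝 0) :=
    (isLittleO_log_rpow_atTop (by norm_num : (0 : ℝ) < 1 / 5)).tendsto_div_nhds_zero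
  have h2 : Tendsto (fun T : ℕ => |K| * (Real.log T / (T : ℝ) ^ ((1 : ℝ) / 5))) atTop (𝓝 0) := by
    have := (h1.comp tendsto_natCast_atTop_atTop).const_mul |K|
    rw [mul_zero] at this
    exact this
  apply squeeze_zero_norm' _ h2
  filter_upwards [eventually_ge_atTop 1] with T hT
  have hT0 : (0 : ℝ) < T := by exact_mod_cast hT
  have hl := log_nonneg' T
  rw [Real.norm_eq_abs, abs_div, abs_mul, abs_mul, abs_of_nonneg hl, abs_of_pos hT0,
    abs_of_nonneg (by positivity : (0 : ℝ) ≤ (zz T : ℝ) ^ 4)]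
  have h3 : (T : ℝ) = (T : ℝ) ^ ((4 : ℝ) / 5) * (T : ℝ) ^ ((1 : ℝ) / 5) := by
    rw [← Real.rpow_add hT0]; norm_num
  have h4 := zz_pow_le T
  have h5 : 0 < (T : ℝ) ^ ((4 : ℝ) / 5) := Real.rpow_pos_of_pos hT0 _
  have h6 : 0 < (T : ℝ) ^ ((1 : ℝ) / 5) := Real.rpow_pos_of_pos hT0 _
  rw [div_le_iff₀ hT0]
  calc Real.log T * ((zz T : ℝ) ^ 4 * |K|) ≤
      Real.log T * ((T : ℝ) ^ ((4 : ℝ) / 5) * |K|) := by
        apply mul_le_mul_of_nonneg_left _ hl
        exact mul_le_mul_of_nonneg_right h4 (abs_nonneg K)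
    _ = |K| * (Real.log T / (T : ℝ) ^ ((1 : ℝ) / 5)) *
        ((T : ℝ) ^ ((4 : ℝ) / 5) * (T : ℝ) ^ ((1 : ℝ) / 5)) := by
        field_simp
    _ = _ := by rw [← h3]

lemma tendsto_small' (K : ℝ) : Tendsto (fun T : ℕ => K * (zz T : ℝ) / T) atTop (𝓝 0) := by
  have h1 : Tendsto (fun x : ℝ => x ^ (-((4 : ℝ) / 5))) atTop (𝓝 0) :=
    tendsto_rpow_neg_atTop (by norm_num)
  have h2 : Tendsto (fun T : ℕ => |K| * ((T : ℝ) ^ (-((4 : ℝ) / 5)))) atTop (𝓝 0) := by
    have := (h1.comp tendsto_natCast_atTop_atTop).const_mul |K|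
    rw [mul_zero] at this
    exact this
  apply squeeze_zero_norm' _ h2
  filter_upwards [eventually_ge_atTop 1] with T hT
  have hT0 : (0 : ℝ) < T := by exact_mod_cast hT
  rw [Real.norm_eq_abs, abs_div, abs_mul, abs_of_pos hT0,
    abs_of_nonneg (Nat.cast_nonneg _ : (0 : ℝ) ≤ (zz T : ℝ)), div_le_iff₀ hT0]
  calc |K| * (zz T : ℝ) ≤ |K| * (T : ℝ) ^ ((1 : ℝ) / 5) :=
        mul_le_mul_of_nonneg_left (zz_le T) (abs_nonneg K)
    _ = |K| * ((T : ℝ) ^ (-((4 : ℝ) / 5)) * T) := by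
        congr 1
        have h3 : (T : ℝ) = (T : ℝ) ^ (1 : ℝ) := (Real.rpow_one _).symm
        conv_rhs => rw [h3]
        rw [← Real.rpow_mul hT0.le, ← Real.rpow_add hT0]
        norm_num
    _ = _ := by ring

/-- The twisted sum over all primes up to `T`. -/
noncomputable def SF (c : ℕ → ℝ) (T : ℕ) (a : ℤ) : ℝ :=
  ∑ p ∈ PR T, ch a p * (c p * Real.log p)

lemma SF_sub {c : ℕ → ℝ} {M : ℝ} (hc : ∀ p : ℕ, p.Prime → |c p| ≤ M) (z T : ℕ) (a : ℤ) :
    |SF c T a - SS c z T a| ≤ M * (Real.log 4 * z) := by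
  have hM : 0 ≤ M := (abs_nonneg _).trans (hc 2 Nat.prime_two)
  have h1 : SF c T a - SS c z T a = ∑ p ∈ (PR T).filter (fun p => ¬ z < p),
      ch a p * (c p * Real.log p) := by
    unfold SF SS PRz
    rw [← Finset.sum_filter_add_sum_filter_not (PR T) (z < ·)]
    ring
  rw [h1]
  calc _ ≤ ∑ p ∈ (PR T).filter (fun p => ¬ z < p), |ch a p * (c p * Real.log p)| :=
        Finset.abs_sum_le_sum_abs _ _
    _ ≤ ∑ p ∈ (PR T).filter (fun p => ¬ z < p), M * Real.log p := by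
        refine Finset.sum_le_sum fun p hp => ?_
        rw [abs_mul, abs_mul, abs_of_nonneg (log_nonneg' p)]
        have h2 := hc p (Finset.mem_filter.1 (Finset.mem_filter.1 hp).1).2
        calc |ch a p| * (|c p| * Real.log p) ≤ 1 * (M * Real.log p) := by
              apply mul_le_mul (abs_ch_le a p) _ (mul_nonneg (abs_nonneg _) (log_nonneg' p))
                zero_le_one
              exact mul_le_mul_of_nonneg_right h2 (log_nonneg' p)
          _ = _ := one_mul _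
    _ = M * ∑ p ∈ (PR T).filter (fun p => ¬ z < p), Real.log p := by rw [Finset.mul_sum]
    _ ≤ M * ∑ p ∈ PR z, Real.log p := by
        apply mul_le_mul_of_nonneg_left _ hM
        apply Finset.sum_le_sum_of_subset_of_nonneg
        · intro p hp
          have h2 := Finset.mem_filter.1 hp
          have h3 := Finset.mem_filter.1 h2.1
          have h4 := Finset.mem_Icc.1 h3.1
          exact Finset.mem_filter.2 ⟨Finset.mem_Icc.2 ⟨h4.1, not_lt.1 h2.2⟩, h3.2⟩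
        · intro p _ _
          exact log_nonneg' p
    _ ≤ _ := mul_le_mul_of_nonneg_left (sum_log_PR z) hM

open Classical in
/-- For each large `T` the number of exceptional twists is bounded. -/
lemma count_T {c : ℕ → ℝ} {M : ℝ} (hc : ∀ p : ℕ, p.Prime → |c p| ≤ M)
    {Δ : ℤ → ℕ → ℝ} (hΔ : ∀ a : ℤ, Squarefree a →
      Tendsto (fun T : ℕ => Δ a T - SF c T a / T) atTop (𝓝 0))
    (A : Finset ℤ) (hA : ∀ a ∈ A, Squarefree a) {ε : ℝ} (hε : 0 < ε) :
    ∀ᶠ T : ℕ in atTop, ((A.filter fun a => ε < |Δ a T|).card : ℝ) * ε ^ 2 ≤ 7 * M ^ 2 := by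
  obtain ⟨Q, hQ⟩ : ∃ Q : ℝ, ∀ a ∈ A, ∀ b ∈ A, 4 * ((a * b).natAbs : ℝ) ≤ Q := by
    refine ⟨∑ a ∈ A, ∑ b ∈ A, 4 * ((a * b).natAbs : ℝ), fun a ha b hb => ?_⟩
    have h1 : 4 * ((a * b).natAbs : ℝ) ≤ ∑ b ∈ A, 4 * ((a * b).natAbs : ℝ) :=
      Finset.single_le_sum (f := fun b => 4 * ((a * b).natAbs : ℝ)) (fun _ _ => by positivity) hb
    exact h1.trans (Finset.single_le_sum (f := fun a => ∑ b ∈ A, 4 * ((a * b).natAbs : ℝ))
      (fun _ _ => Finset.sum_nonneg fun _ _ => by positivity) ha)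
  have e1 : ∀ᶠ T : ℕ in atTop, ∀ a ∈ A, |Δ a T - SF c T a / T| < ε / 500 := by
    rw [Filter.eventually_all_finset]
    intro a ha
    have h1 := (hΔ a (hA a ha)).eventually (Metric.ball_mem_nhds (0 : ℝ) (by positivity : 0 < ε / 500))
    filter_upwards [h1] with T hT
    have hT' := Metric.mem_ball.1 hT
    rw [Real.dist_eq, sub_zero] at hT'
    exact hT'
  have e2 : ∀ᶠ T : ℕ in atTop, |(M * Real.log 4) * (zz T : ℝ) / T| < ε / 500 := by
    have h1 := (tendsto_small' (M * Real.log 4)).eventually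
      (Metric.ball_mem_nhds (0 : ℝ) (by positivity : 0 < ε / 500))
    filter_upwards [h1] with T hT
    have hT' := Metric.mem_ball.1 hT
    rw [Real.dist_eq, sub_zero] at hT'
    exact hT'
  have e3 : ∀ᶠ T : ℕ in atTop,
      |Real.log T * ((zz T : ℝ) ^ 4 * (1 + A.card * Q)) / T| < 1 / 1000 := by
    have h1 := (tendsto_small (1 + A.card * Q)).eventually
      (Metric.ball_mem_nhds (0 : ℝ) (by norm_num : (0 : ℝ) < 1 / 1000))
    filter_upwards [h1] with T hT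
    have hT' := Metric.mem_ball.1 hT
    rw [Real.dist_eq, sub_zero] at hT'
    exact hT'
  filter_upwards [e1, e2, e3, eventually_ge_atTop 1] with T h1 h2 h3 hT
  have hT0 : (0 : ℝ) < T := by exact_mod_cast hT
  have hb := bessel hc (one_le_zz hT) (lt_zz T) A hA hQ
  have h4 : ∀ a ∈ A.filter (fun a => ε < |Δ a T|),
      (992 / 1000 * ε ^ 2) * (T : ℝ) ^ 2 ≤ SS c (zz T) T a ^ 2 := by
    intro a ha
    obtain ⟨ha1, ha2⟩ := Finset.mem_filter.1 ha
    have h5 := h1 a ha1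
    have h6 := SF_sub hc (zz T) T a
    have h7 : |SF c T a / T - SS c (zz T) T a / T| < ε / 500 := by
      rw [← sub_div, abs_div, abs_of_pos hT0]
      refine lt_of_le_of_lt ?_ ((le_abs_self _).trans_lt h2)
      apply div_le_div_of_nonneg_right _ hT0.le
      linarith
    have h8 : 996 / 1000 * ε ≤ |SS c (zz T) T a / T| := by
      have h9 : |Δ a T| ≤ |Δ a T - SF c T a / T| + |SF c T a / T - SS c (zz T) T a / T| +
          |SS c (zz T) T a / T| := by
        have e1 := abs_add_le (Δ a T - SF c T a / T + (SF c T a / T - SS c (zz T) T a / T))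
          (SS c (zz T) T a / T)
        have e2 := abs_add_le (Δ a T - SF c T a / T) (SF c T a / T - SS c (zz T) T a / T)
        have e3 : Δ a T - SF c T a / T + (SF c T a / T - SS c (zz T) T a / T) +
          SS c (zz T) T a / T = Δ a T := by ring
        rw [e3] at e1
        linarith
      linarith
    have h10 : (996 / 1000 * ε) ^ 2 ≤ (SS c (zz T) T a / T) ^ 2 := by
      rw [← sq_abs (SS c (zz T) T a / T)]
      exact pow_le_pow_left₀ (by positivity) h8 2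
    have h11 : SS c (zz T) T a ^ 2 = (SS c (zz T) T a / T) ^ 2 * (T : ℝ) ^ 2 := by
      field_simp
    rw [h11]
    apply mul_le_mul_of_nonneg_right _ (sq_nonneg _)
    nlinarith [sq_nonneg ε]
  have h5 : ((A.filter fun a => ε < |Δ a T|).card : ℝ) * ((992 / 1000 * ε ^ 2) * (T : ℝ) ^ 2) ≤
      ∑ a ∈ A, SS c (zz T) T a ^ 2 := by
    rw [← nsmul_eq_mul, ← Finset.sum_const]
    exact (Finset.sum_le_sum h4).trans
      (Finset.sum_le_sum_of_subset_of_nonneg (Finset.filter_subset _ _) fun _ _ _ => sq_nonneg _)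
  have h6 : M ^ 2 * (Real.log 4 * T) * (5 * T + Real.log T * ((zz T : ℝ) ^ 4 *
      (1 + A.card * Q))) ≤ 6.94 * M ^ 2 * (T : ℝ) ^ 2 := by
    have h7 : Real.log T * ((zz T : ℝ) ^ 4 * (1 + A.card * Q)) ≤ 1 / 1000 * T := by
      have h8 := (le_abs_self _).trans h3.le
      rw [div_le_iff₀ hT0] at h8
      exact h8
    have h9 : Real.log 4 ≤ 1.3863 := by
      have : (4 : ℝ) = 2 ^ 2 := by norm_num
      rw [this, Real.log_pow]
      have := Real.log_two_lt_d9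
      push_cast
      linarith
    have h10 : 0 ≤ Real.log 4 := Real.log_nonneg (by norm_num)
    calc _ ≤ M ^ 2 * (Real.log 4 * T) * (5 * T + 1 / 1000 * T) := by
          apply mul_le_mul_of_nonneg_left _ (by positivity)
          linarith
      _ = (Real.log 4 * 5.001) * (M ^ 2 * (T : ℝ) ^ 2) := by ring
      _ ≤ 6.94 * (M ^ 2 * (T : ℝ) ^ 2) := by
          apply mul_le_mul_of_nonneg_right _ (by positivity)
          linarith
      _ = _ := by ring
  have h7 := (h5.trans hb).trans h6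
  have h8 : ((A.filter fun a => ε < |Δ a T|).card : ℝ) * (992 / 1000 * ε ^ 2) ≤ 6.94 * M ^ 2 := by
    have h9 : (0 : ℝ) < (T : ℝ) ^ 2 := by positivity
    apply le_of_mul_le_mul_right _ h9
    linarith
  nlinarith [sq_nonneg M]


open Classical in
/-- The number of twists which are bad for a set of `T` of lower density at least `η`. -/
lemma count_A {c : ℕ → ℝ} {M : ℝ} (hc : ∀ p : ℕ, p.Prime → |c p| ≤ M)
    {Δ : ℤ → ℕ → ℝ} (hΔ : ∀ a : ℤ, Squarefree a →
      Tendsto (fun T : ℕ => Δ a T - SF c T a / T) atTop (𝓝 0))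
    (A : Finset ℤ) (hA : ∀ a ∈ A, Squarefree a) {ε η : ℝ} (hε : 0 < ε)
    (hbad : ∀ a ∈ A, ∀ᶠ X : ℕ in atTop,
      η * X ≤ (((Icc 1 X).filter fun T : ℕ => ε < |Δ a T|).card : ℝ)) :
    (A.card : ℝ) * η ≤ 7 * M ^ 2 / ε ^ 2 := by
  obtain ⟨T₁, hT₁⟩ := Filter.eventually_atTop.1 (count_T hc hΔ A hA hε)
  obtain ⟨K, hK⟩ : ∃ K : ℝ, K = 7 * M ^ 2 / ε ^ 2 := ⟨_, rfl⟩
  have hK0 : 0 ≤ K := by rw [hK]; positivity
  rw [← hK]
  have hcT : ∀ T : ℕ, T₁ ≤ T → ((A.filter fun a => ε < |Δ a T|).card : ℝ) ≤ K := by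
    intro T hT
    rw [hK, le_div_iff₀ (by positivity)]
    exact hT₁ T hT
  have hall : ∀ᶠ X : ℕ in atTop, ∀ a ∈ A,
      η * X ≤ (((Icc 1 X).filter fun T : ℕ => ε < |Δ a T|).card : ℝ) := by
    rw [Filter.eventually_all_finset]
    exact hbad
  have hsum : ∀ᶠ X : ℕ in atTop, (A.card : ℝ) * η * X ≤ T₁ * A.card + K * X := by
    filter_upwards [hall] with X hX
    have h1 : (A.card : ℝ) * η * X ≤
        ∑ a ∈ A, (((Icc 1 X).filter fun T : ℕ => ε < |Δ a T|).card : ℝ) := by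
      rw [mul_assoc, ← nsmul_eq_mul, ← Finset.sum_const]
      exact Finset.sum_le_sum hX
    have h2 : ∑ a ∈ A, (((Icc 1 X).filter fun T : ℕ => ε < |Δ a T|).card : ℝ) =
        ∑ T ∈ Icc 1 X, ((A.filter fun a => ε < |Δ a T|).card : ℝ) := by
      simp_rw [Finset.card_filter]
      push_cast
      rw [Finset.sum_comm]
    have h3 : ∑ T ∈ Icc 1 X, ((A.filter fun a => ε < |Δ a T|).card : ℝ) ≤
        ∑ T ∈ Icc 1 X, ((if T < T₁ then (A.card : ℝ) else 0) + K) := by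
      refine Finset.sum_le_sum fun T _ => ?_
      split_ifs with h
      · have : ((A.filter fun a => ε < |Δ a T|).card : ℝ) ≤ A.card := by
          exact_mod_cast Finset.card_filter_le _ _
        linarith
      · rw [zero_add]
        exact hcT T (not_lt.1 h)
    have h4 : ∑ T ∈ Icc 1 X, ((if T < T₁ then (A.card : ℝ) else 0) + K) ≤
        T₁ * A.card + K * X := by
      rw [Finset.sum_add_distrib, ← Finset.sum_filter, Finset.sum_const, Finset.sum_const,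
        Nat.card_Icc, nsmul_eq_mul, nsmul_eq_mul, Nat.add_sub_cancel]
      have h5 : (((Icc 1 X).filter fun T => T < T₁).card : ℝ) ≤ T₁ := by
        have h6 : (Icc 1 X).filter (fun T => T < T₁) ⊆ range T₁ := by
          intro T hT
          rw [Finset.mem_range]
          exact (Finset.mem_filter.1 hT).2
        have h7 := Finset.card_le_card h6
        rw [Finset.card_range] at h7
        exact_mod_cast h7
      have h6 : (0 : ℝ) ≤ A.card := Nat.cast_nonneg _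
      nlinarith
    linarith
  by_contra hcon
  push Not at hcon
  obtain ⟨X₀, hX₀⟩ := Filter.eventually_atTop.1 hsum
  obtain ⟨X₁, hX₁⟩ := exists_nat_gt ((T₁ * A.card : ℝ) / (A.card * η - K))
  have hpos : 0 < (A.card : ℝ) * η - K := by linarith
  have h1 := hX₀ (max X₀ X₁) (le_max_left _ _)
  have h2 : (X₁ : ℝ) ≤ ((max X₀ X₁ : ℕ) : ℝ) := by exact_mod_cast le_max_right _ _
  rw [div_lt_iff₀ hpos] at hX₁
  nlinarith

/-- The exceptional twists form a finite set of bounded cardinality. -/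
theorem ncard_le {c : ℕ → ℝ} {M : ℝ} (hc : ∀ p : ℕ, p.Prime → |c p| ≤ M)
    {Δ : ℤ → ℕ → ℝ} (hΔ : ∀ a : ℤ, Squarefree a →
      Tendsto (fun T : ℕ => Δ a T - SF c T a / T) atTop (𝓝 0))
    {ε η : ℝ} (hε : 0 < ε) (hη : 0 < η) {S : Set ℤ} (hS : ∀ a ∈ S, Squarefree a)
    (hbad : ∀ a ∈ S, ∀ᶠ X : ℕ in atTop,
      η * X ≤ (Nat.card {T : ℕ // 1 ≤ T ∧ T ≤ X ∧ ε < |Δ a T|} : ℝ)) :
    S.Finite ∧ (S.ncard : ℝ) ≤ 7 * M ^ 2 / (ε ^ 2 * η) := by
  classical
  have hcard : ∀ (a : ℤ) (X : ℕ), (Nat.card {T : ℕ // 1 ≤ T ∧ T ≤ X ∧ ε < |Δ a T|} : ℝ) =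
      (((Icc 1 X).filter fun T : ℕ => ε < |Δ a T|).card : ℝ) := by
    intro a X
    congr 1
    apply Nat.subtype_card
    intro T
    rw [Finset.mem_filter, Finset.mem_Icc, and_assoc]
  have key : ∀ A : Finset ℤ, (A : Set ℤ) ⊆ S → (A.card : ℝ) ≤ 7 * M ^ 2 / (ε ^ 2 * η) := by
    intro A hAS
    have h1 := count_A hc hΔ A (fun a ha => hS a (hAS ha)) (ε := ε) (η := η) hε fun a ha => by
      have := hbad a (hAS ha)
      simp_rw [hcard] at this
      exact this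
    rw [← div_div, le_div_iff₀ hη]
    exact h1
  have hfin : S.Finite := by
    by_contra hinf
    obtain ⟨n, hn⟩ := exists_nat_gt (7 * M ^ 2 / (ε ^ 2 * η))
    obtain ⟨A, hA, hAc⟩ := Set.Infinite.exists_subset_card_eq hinf n
    have := key A hA
    rw [hAc] at this
    linarith
  refine ⟨hfin, ?_⟩
  rw [Set.ncard_eq_toFinset_card S hfin]
  exact key _ (by rw [Set.Finite.coe_toFinset])


/-- The form of the theorem for all but finitely many squarefree integers. -/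
theorem conclude {c : ℕ → ℝ} {d M : ℝ} (hc : ∀ p : ℕ, p.Prime → |c p| ≤ d * |M|)
    (Δ : ℤ → ℕ → ℝ) (hΔ : ∀ a : ℤ, Squarefree a →
      Tendsto (fun T : ℕ => Δ a T - SF c T a / T) atTop (𝓝 0))
    {ε η : ℝ} (hε : 0 < ε) (hη : 0 < η) :
    ∃ E : Finset ℤ, (E.card : ℝ) ≤ 7 * (d * M) ^ 2 / (ε ^ 2 * η) ∧
      ∀ a : ℤ, Squarefree a → a ∉ E → ∃ᶠ X : ℕ in atTop,
        (1 - η) * X < (Nat.card {T : ℕ // 1 ≤ T ∧ T ≤ X ∧ |Δ a T| ≤ ε} : ℝ) := by
  classical
  obtain ⟨h1, h2⟩ := ncard_le hc hΔ hε hη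
    (S := {a : ℤ | Squarefree a ∧ ∀ᶠ X : ℕ in atTop, η * X ≤
      (Nat.card {T : ℕ // 1 ≤ T ∧ T ≤ X ∧ ε < |Δ a T|} : ℝ)})
    (fun a ha => ha.1) (fun a ha => ha.2)
  refine ⟨h1.toFinset, ?_, ?_⟩
  · rw [← Set.ncard_eq_toFinset_card _ h1]
    refine h2.trans (le_of_eq ?_)
    rw [mul_pow, mul_pow, sq_abs]
  · intro a ha haE
    rw [Set.Finite.mem_toFinset, Set.mem_ofPred_eq, not_and] at haE
    have h3 := haE ha
    rw [Filter.not_eventually] at h3
    refine h3.mono fun X hX => ?_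
    push Not at hX
    have h4 : (Nat.card {T : ℕ // 1 ≤ T ∧ T ≤ X ∧ |Δ a T| ≤ ε} : ℝ) +
        (Nat.card {T : ℕ // 1 ≤ T ∧ T ≤ X ∧ ε < |Δ a T|} : ℝ) = X := by
      have e1 : Nat.card {T : ℕ // 1 ≤ T ∧ T ≤ X ∧ |Δ a T| ≤ ε} =
          ((Icc 1 X).filter fun T => |Δ a T| ≤ ε).card := by
        apply Nat.subtype_card
        intro T
        rw [Finset.mem_filter, Finset.mem_Icc, and_assoc]
      have e2 : Nat.card {T : ℕ // 1 ≤ T ∧ T ≤ X ∧ ε < |Δ a T|} =
          ((Icc 1 X).filter fun T => ¬ |Δ a T| ≤ ε).card := by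
        apply Nat.subtype_card
        intro T
        rw [Finset.mem_filter, Finset.mem_Icc, and_assoc, not_le]
      rw [e1, e2]
      have e3 := Finset.card_filter_add_card_filter_not (s := Icc 1 X) (fun T => |Δ a T| ≤ ε)
      rw [Nat.card_Icc, Nat.add_sub_cancel] at e3
      exact_mod_cast e3
    linarith

end Pool.Agent.Helper29.QT
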