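import Pool.Agent.Helper29.QT.Selberg

set_option autoImplicit false

namespace Pool.Agent.Helper29.QT

open Finset UniqueFactorizationMonoid

/-- The homomorphism `n ↦ 1 / n`. -/
noncomputable def inv' : ℕ →* ℝ where
  toFun n := (n : ℝ)⁻¹
  map_one' := by simp
  map_mul' a b := by simp [mul_comm]

lemma inv'_apply (n : ℕ) : inv' n = (n : ℝ)⁻¹ := rfl

lemma fiber_le {z k : ℕ} (hk : k ∈ sqf z) :
    ∑ n ∈ (Icc 1 z).filter (fun n => radical n = k), 1 / (n : ℝ) ≤ 1 / (Nat.totient k : ℝ) := by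
  classical
  have hk1 := (mem_sqf.1 hk).1.1
  have hk0 : (0 : ℝ) < k := by exact_mod_cast hk1
  have hk0' : k ≠ 0 := by omega
  set s := k.primeFactors with hs
  have hf : ∀ {p : ℕ}, p.Prime → ‖inv' p‖ < 1 := by
    intro p hp
    rw [inv'_apply, norm_inv, Real.norm_natCast]
    exact inv_lt_one_of_one_lt₀ (by exact_mod_cast hp.one_lt)
  have h1 := (EulerProduct.summable_and_hasSum_factoredNumbers_prod_filter_prime_geometric hf s).2
  have h2 : HasSum (Set.indicator (Nat.factoredNumbers s) fun m => inv' m)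
      (∏ p ∈ s with p.Prime, (1 - inv' p)⁻¹) := hasSum_subtype_iff_indicator.1 h1
  have h3 : ∏ p ∈ s with p.Prime, (1 - inv' p)⁻¹ = k / (Nat.totient k : ℝ) := by
    have h4 : s.filter Nat.Prime = s := by
      rw [Finset.filter_true_of_mem]
      exact fun p hp => Nat.prime_of_mem_primeFactors hp
    rw [h4, Finset.prod_inv_distrib]
    have h5 : (Nat.totient k : ℝ) = k * ∏ p ∈ s, (1 - inv' p) := by
      have h6 := Nat.totient_eq_mul_prod_factors k
      have h7 : ((Nat.totient k : ℚ) : ℝ) = ((k * ∏ p ∈ k.primeFactors, (1 - (p : ℚ)⁻¹) : ℚ) : ℝ) := by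
        rw [h6]
      push_cast at h7
      exact h7
    have h8 := tot_pos hk
    rw [h5] at h8 ⊢
    have h9 : ∏ p ∈ s, (1 - inv' p) ≠ 0 := by
      intro h0
      rw [h0, mul_zero] at h8
      exact lt_irrefl _ h8
    field_simp
  rw [h3] at h2
  have hmem : ∀ n ∈ (Icc 1 z).filter (fun n => radical n = k),
      k ∣ n ∧ n / k ∈ Nat.factoredNumbers s ∧ n ≠ 0 := by
    intro n hn
    rw [Finset.mem_filter, Finset.mem_Icc] at hn
    have hn0 : n ≠ 0 := by omega
    have hdvd : k ∣ n := by rw [← hn.2]; exact radical_dvd_self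
    refine ⟨hdvd, ?_, hn0⟩
    have h4 : n ∈ Nat.factoredNumbers s := by
      rw [Nat.mem_factoredNumbers]
      refine ⟨hn0, fun p hp => ?_⟩
      have h5 : p ∈ n.primeFactors := by
        rw [Nat.mem_primeFactors_iff_mem_primeFactorsList]; exact hp
      rw [← Nat.primeFactors_radical n, hn.2] at h5
      exact h5
    exact Nat.mem_factoredNumbers_of_dvd h4 (Nat.div_dvd_of_dvd hdvd)
  have h4 : ∑ n ∈ (Icc 1 z).filter (fun n => radical n = k), 1 / (n : ℝ) =
      (1 / k) * ∑ m ∈ ((Icc 1 z).filter (fun n => radical n = k)).image (· / k),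
        Set.indicator (Nat.factoredNumbers s) (fun m => inv' m) m := by
    rw [Finset.sum_image, Finset.mul_sum]
    · refine Finset.sum_congr rfl fun n hn => ?_
      obtain ⟨h5, h6, h7⟩ := hmem n hn
      rw [Set.indicator_of_mem h6, inv'_apply]
      obtain ⟨m, rfl⟩ := h5
      rw [Nat.mul_div_cancel_left _ (by omega)]
      push_cast
      rw [one_div, one_div, mul_inv]
    · intro n hn n' hn' h
      obtain ⟨⟨m, rfl⟩, _, _⟩ := hmem n hn
      obtain ⟨⟨m', rfl⟩, _, _⟩ := hmem n' hn'
      simp only [Nat.mul_div_cancel_left _ (show 0 < k by omega)] at h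
      rw [h]
  rw [h4]
  have h5 := sum_le_hasSum (((Icc 1 z).filter (fun n => radical n = k)).image (· / k))
    (fun m _ => Set.indicator_nonneg (fun m _ => by rw [inv'_apply]; positivity) m) h2
  calc (1 / k : ℝ) * _ ≤ (1 / k) * (k / Nat.totient k) :=
        mul_le_mul_of_nonneg_left h5 (by positivity)
    _ = _ := by field_simp

/-- The lower bound for the normalising sum. -/
lemma log_le_GG (z : ℕ) : Real.log ((z : ℝ) + 1) ≤ GG z := by
  classical
  have h1 := log_add_one_le_harmonic z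
  have h2 : ((harmonic z : ℚ) : ℝ) = ∑ n ∈ Icc 1 z, 1 / (n : ℝ) := by
    rw [harmonic_eq_sum_Icc]
    push_cast
    simp
  rw [h2] at h1
  push_cast at h1
  refine h1.trans ?_
  have h3 : ∀ n ∈ Icc 1 z, radical n ∈ sqf z := by
    intro n hn
    rw [Finset.mem_Icc] at hn
    rw [mem_sqf]
    refine ⟨⟨Nat.radical_pos n, ?_⟩, squarefree_radical⟩
    exact (Nat.radical_le_self_iff.2 (by omega)).trans hn.2
  rw [← Finset.sum_fiberwise_of_maps_to h3]
  unfold GG
  exact Finset.sum_le_sum fun k hk => fiber_le hk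

end Pool.Agent.Helper29.QT
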