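import Pool.Agent.Helper29.QT.Harm

set_option autoImplicit false

namespace Pool.Agent.Helper29.QT

open Finset

/-- The majorant of the primes. -/
noncomputable def ww (z n : ℕ) : ℝ := (∑ d ∈ (Icc 1 z).filter (· ∣ n), lam z d) ^ 2

lemma ww_nonneg (z n : ℕ) : 0 ≤ ww z n := sq_nonneg _

lemma ww_prime {z p : ℕ} (hz : 1 ≤ z) (hp : p.Prime) (hzp : z < p) : ww z p = 1 := by
  unfold ww
  have h1 : (Icc 1 z).filter (· ∣ p) = {1} := by
    ext d
    rw [Finset.mem_filter, Finset.mem_Icc, Finset.mem_singleton]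
    constructor
    · rintro ⟨h1, h2⟩
      rcases (Nat.dvd_prime hp).1 h2 with h | h
      · exact h
      · omega
    · rintro rfl
      exact ⟨⟨le_refl _, hz⟩, one_dvd _⟩
  rw [h1, Finset.sum_singleton, lam_one hz, one_pow]

lemma sum_ww (z : ℕ) (S : Finset ℕ) (g : ℕ → ℝ) :
    ∑ n ∈ S, ww z n * g n = ∑ d ∈ Icc 1 z, ∑ e ∈ Icc 1 z, lam z d * lam z e *
      ∑ n ∈ S.filter (Nat.lcm d e ∣ ·), g n := by
  have h1 : ∀ n ∈ S, ww z n * g n = ∑ d ∈ Icc 1 z, ∑ e ∈ Icc 1 z, lam z d * lam z e *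
      (if Nat.lcm d e ∣ n then g n else 0) := by
    intro n _
    unfold ww
    rw [sq, Finset.sum_filter, Finset.sum_mul_sum, Finset.sum_mul]
    refine Finset.sum_congr rfl fun d _ => ?_
    rw [Finset.sum_mul]
    refine Finset.sum_congr rfl fun e _ => ?_
    have h2 : Nat.lcm d e ∣ n ↔ d ∣ n ∧ e ∣ n := Nat.lcm_dvd_iff
    by_cases h3 : d ∣ n <;> by_cases h4 : e ∣ n <;> simp [h2, h3, h4]
  rw [Finset.sum_congr rfl h1, Finset.sum_comm]
  refine Finset.sum_congr rfl fun d _ => ?_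
  rw [Finset.sum_comm]
  refine Finset.sum_congr rfl fun e _ => ?_
  rw [← Finset.mul_sum, Finset.sum_filter]

lemma sum_abs_lam {z : ℕ} (hz : 1 ≤ z) :
    ∑ d ∈ Icc 1 z, ∑ e ∈ Icc 1 z, |lam z d * lam z e| ≤ (z : ℝ) ^ 4 := by
  have h1 : ∀ d ∈ Icc 1 z, ∀ e ∈ Icc 1 z, |lam z d * lam z e| ≤ (z : ℝ) ^ 2 := by
    intro d hd e he
    rw [abs_mul, sq]
    exact mul_le_mul (abs_lam hz (Finset.mem_Icc.1 hd).2) (abs_lam hz (Finset.mem_Icc.1 he).2)
      (abs_nonneg _) (Nat.cast_nonneg _)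
  refine (Finset.sum_le_sum fun d hd => Finset.sum_le_sum fun e he => h1 d hd e he).trans ?_
  rw [Finset.sum_const, Finset.sum_const, Nat.card_Icc]
  simp only [nsmul_eq_mul, Nat.add_sub_cancel]
  apply le_of_eq
  ring

/-- Sums of bounded sums in progressions with the weights. -/
lemma sum_ww_small {z : ℕ} (hz : 1 ≤ z) (S : Finset ℕ) (g : ℕ → ℝ) {Q : ℝ}
    (hQ : ∀ D : ℕ, 1 ≤ D → |∑ n ∈ S.filter (D ∣ ·), g n| ≤ Q) :
    |∑ n ∈ S, ww z n * g n| ≤ (z : ℝ) ^ 4 * Q := by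
  rw [sum_ww]
  have h1 : |∑ d ∈ Icc 1 z, ∑ e ∈ Icc 1 z, lam z d * lam z e *
      ∑ n ∈ S.filter (Nat.lcm d e ∣ ·), g n| ≤
      ∑ d ∈ Icc 1 z, ∑ e ∈ Icc 1 z, |lam z d * lam z e| * Q := by
    refine (Finset.abs_sum_le_sum_abs _ _).trans (Finset.sum_le_sum fun d hd => ?_)
    refine (Finset.abs_sum_le_sum_abs _ _).trans (Finset.sum_le_sum fun e he => ?_)
    rw [abs_mul]
    apply mul_le_mul_of_nonneg_left _ (abs_nonneg _)
    apply hQ
    rw [Finset.mem_Icc] at hd he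
    exact Nat.lcm_pos (by omega) (by omega)
  have hQ0 : 0 ≤ Q := (abs_nonneg _).trans (hQ 1 le_rfl)
  refine h1.trans ?_
  simp_rw [← Finset.sum_mul]
  exact mul_le_mul_of_nonneg_right (sum_abs_lam hz) hQ0

lemma card_dvd (N D : ℕ) (hD : 1 ≤ D) :
    |∑ n ∈ (Icc 1 N).filter (D ∣ ·), (1 : ℝ) - N / D| ≤ 1 := by
  rw [Finset.sum_const, nsmul_eq_mul, mul_one]
  have h1 : ((Icc 1 N).filter (D ∣ ·)).card = N / D := by
    rw [← Nat.card_multiples' N D]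
    congr 1
    ext n
    rw [Finset.mem_filter, Finset.mem_filter, Finset.mem_Icc, Finset.mem_range]
    constructor
    · rintro ⟨⟨h1, h2⟩, h3⟩
      exact ⟨by omega, by omega, h3⟩
    · rintro ⟨h1, h2, h3⟩
      exact ⟨⟨by omega, by omega⟩, h3⟩
  rw [h1]
  have hD0 : (0 : ℝ) < D := by exact_mod_cast hD
  have h2 : ((N / D : ℕ) : ℝ) ≤ N / D := Nat.cast_div_le
  have h3 : (N : ℝ) / D < ((N / D : ℕ) : ℝ) + 1 := by
    rw [div_lt_iff₀ hD0]
    exact_mod_cast Nat.lt_mul_of_div_lt (Nat.lt_succ_self _) hD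
  rw [abs_le]
  constructor <;> linarith

/-- The sum of the weights. -/
lemma sum_ww_one {z : ℕ} (hz : 1 ≤ z) (N : ℕ) :
    ∑ n ∈ Icc 1 N, ww z n ≤ N / GG z + (z : ℝ) ^ 4 := by
  have h1 := sum_ww z (Icc 1 N) fun _ => (1 : ℝ)
  simp only [mul_one] at h1
  rw [h1]
  have h2 : ∀ d ∈ Icc 1 z, ∀ e ∈ Icc 1 z, lam z d * lam z e *
      ∑ n ∈ (Icc 1 N).filter (Nat.lcm d e ∣ ·), (1 : ℝ) ≤
      N * (lam z d * lam z e / (Nat.lcm d e : ℝ)) + |lam z d * lam z e| := by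
    intro d hd e he
    rw [Finset.mem_Icc] at hd he
    have h3 := card_dvd N (Nat.lcm d e) (Nat.lcm_pos (by omega) (by omega))
    have h4 : lam z d * lam z e * ∑ n ∈ (Icc 1 N).filter (Nat.lcm d e ∣ ·), (1 : ℝ) =
        N * (lam z d * lam z e / (Nat.lcm d e : ℝ)) + lam z d * lam z e *
          (∑ n ∈ (Icc 1 N).filter (Nat.lcm d e ∣ ·), (1 : ℝ) - N / (Nat.lcm d e : ℝ)) := by
      ring
    rw [h4]
    have h5 := le_abs_self (lam z d * lam z e *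
      (∑ n ∈ (Icc 1 N).filter (Nat.lcm d e ∣ ·), (1 : ℝ) - N / (Nat.lcm d e : ℝ)))
    rw [abs_mul] at h5
    have h6 := mul_le_mul_of_nonneg_left h3 (abs_nonneg (lam z d * lam z e))
    linarith
  refine (Finset.sum_le_sum fun d hd => Finset.sum_le_sum fun e he => h2 d hd e he).trans ?_
  simp_rw [Finset.sum_add_distrib, ← Finset.mul_sum]
  rw [main_term hz]
  have h7 := sum_abs_lam hz
  have h8 : (N : ℝ) * (1 / GG z) = N / GG z := by ring
  rw [h8]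
  linarith

end Pool.Agent.Helper29.QT
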