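import Mathlib

set_option autoImplicit false

namespace Pool.Agent.Helper29.QT

open Finset ArithmeticFunction

/-- The squarefree numbers up to `z`. -/
def sqf (z : ℕ) : Finset ℕ := (Icc 1 z).filter Squarefree

/-- The normalising sum of the Selberg sieve. -/
noncomputable def GG (z : ℕ) : ℝ := ∑ k ∈ sqf z, 1 / (Nat.totient k : ℝ)

/-- The weights of the Selberg sieve. -/
noncomputable def lam (z d : ℕ) : ℝ :=
  d * ((∑ k ∈ (sqf z).filter (d ∣ ·), (moebius (k / d) : ℝ) * (moebius k) / Nat.totient k) / GG z)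

lemma mem_sqf {z k : ℕ} : k ∈ sqf z ↔ (1 ≤ k ∧ k ≤ z) ∧ Squarefree k := by
  unfold sqf
  rw [Finset.mem_filter, Finset.mem_Icc]

lemma tot_pos {z k : ℕ} (hk : k ∈ sqf z) : (0 : ℝ) < Nat.totient k := by
  exact_mod_cast Nat.totient_pos.2 (mem_sqf.1 hk).1.1

lemma mu_sq {z k : ℕ} (hk : k ∈ sqf z) : (moebius k : ℝ) * (moebius k) = 1 := by
  have h := moebius_sq_eq_one_of_squarefree (mem_sqf.1 hk).2
  rw [sq] at h
  exact_mod_cast h

lemma GG_pos {z : ℕ} (hz : 1 ≤ z) : 0 < GG z := by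
  unfold GG
  have h1 : 1 ∈ sqf z := mem_sqf.2 ⟨⟨le_refl _, hz⟩, squarefree_one⟩
  refine Finset.sum_pos (fun k hk => ?_) ⟨1, h1⟩
  exact div_pos one_pos (tot_pos hk)

lemma lam_one {z : ℕ} (hz : 1 ≤ z) : lam z 1 = 1 := by
  unfold lam
  have h1 : (sqf z).filter (1 ∣ ·) = sqf z := by
    rw [Finset.filter_true_of_mem]
    intro k _
    exact one_dvd k
  rw [h1]
  have h2 : ∑ k ∈ sqf z, (moebius (k / 1) : ℝ) * (moebius k) / Nat.totient k = GG z := by
    unfold GG
    refine Finset.sum_congr rfl fun k hk => ?_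
    rw [Nat.div_one, mu_sq hk]
  rw [h2, div_self (GG_pos hz).ne']
  simp

/-- The sum of the values of the Moebius function over an interval of the divisor lattice. -/
lemma sum_mu {z k k' : ℕ} (hk : 1 ≤ k) (hk' : 1 ≤ k') (hkz : k' ≤ z) :
    ∑ d ∈ (Icc 1 z).filter (k ∣ ·), (if d ∣ k' then (moebius (k' / d) : ℝ) else 0) =
      if k' = k then 1 else 0 := by
  rw [← Finset.sum_filter, Finset.filter_filter]
  by_cases hd : k ∣ k'
  · obtain ⟨m, rfl⟩ := hd
    have hm : m ≠ 0 := by rintro rfl; simp at hk'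
    have h1 : ∑ d ∈ (Icc 1 z).filter (fun d => k ∣ d ∧ d ∣ k * m), (moebius (k * m / d) : ℝ) =
        ∑ e ∈ m.divisors, (moebius (m / e) : ℝ) := by
      symm
      apply Finset.sum_bij (fun e _ => k * e)
      · intro e he
        have he' := Nat.dvd_of_mem_divisors he
        rw [Finset.mem_filter, Finset.mem_Icc]
        have h0 : 0 < e := Nat.pos_of_mem_divisors he
        refine ⟨⟨Nat.mul_pos hk h0, ?_⟩, dvd_mul_right _ _, Nat.mul_dvd_mul_left _ he'⟩
        exact (Nat.mul_le_mul_left k (Nat.le_of_dvd (Nat.pos_of_ne_zero hm) he')).trans hkz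
      · intro e _ e' _ h
        exact Nat.eq_of_mul_eq_mul_left hk h
      · intro d hd
        rw [Finset.mem_filter, Finset.mem_Icc] at hd
        obtain ⟨e, rfl⟩ := hd.2.1
        refine ⟨e, ?_, rfl⟩
        rw [Nat.mem_divisors]
        exact ⟨Nat.dvd_of_mul_dvd_mul_left hk hd.2.2, hm⟩
      · intro e _
        rw [Nat.mul_div_mul_left _ _ hk]
    rw [h1, Nat.sum_div_divisors m fun e => (moebius e : ℝ)]
    have h2 : ∑ e ∈ m.divisors, (moebius e : ℝ) = if m = 1 then 1 else 0 := by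
      have h3 := congrArg (fun f => f m) moebius_mul_coe_zeta
      simp only [coe_mul_zeta_apply, one_apply] at h3
      exact_mod_cast h3
    rw [h2]
    by_cases hm1 : m = 1
    · rw [if_pos hm1, if_pos (by rw [hm1, mul_one])]
    · rw [if_neg hm1, if_neg]
      intro h
      apply hm1
      have : k * m = k * 1 := by rw [h, mul_one]
      exact Nat.eq_of_mul_eq_mul_left hk this
  · have h1 : (Icc 1 z).filter (fun d => k ∣ d ∧ d ∣ k') = ∅ := by
      rw [Finset.filter_eq_empty_iff]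
      rintro d _ ⟨h1, h2⟩
      exact hd (h1.trans h2)
    rw [h1, Finset.sum_empty, if_neg]
    rintro rfl
    exact hd (dvd_refl _)

lemma sum_lam {z k : ℕ} (hk : 1 ≤ k) :
    ∑ d ∈ (Icc 1 z).filter (k ∣ ·), lam z d / d =
      if k ∈ sqf z then (moebius k : ℝ) / Nat.totient k / GG z else 0 := by
  have h1 : ∀ d ∈ (Icc 1 z).filter (k ∣ ·), lam z d / d =
      ∑ k' ∈ sqf z, (moebius k' : ℝ) / Nat.totient k' / GG z *
        (if d ∣ k' then (moebius (k' / d) : ℝ) else 0) := by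
    intro d hd
    have hd0 : (d : ℝ) ≠ 0 := by
      have := (Finset.mem_Icc.1 (Finset.mem_filter.1 hd).1).1
      exact_mod_cast (by omega : d ≠ 0)
    unfold lam
    rw [mul_div_assoc, mul_comm, div_mul_cancel₀ _ hd0, Finset.sum_filter, Finset.sum_div]
    refine Finset.sum_congr rfl fun k' _ => ?_
    split_ifs <;> ring
  rw [Finset.sum_congr rfl h1, Finset.sum_comm]
  simp_rw [← Finset.mul_sum]
  have h2 : ∀ k' ∈ sqf z, (moebius k' : ℝ) / Nat.totient k' / GG z *
      ∑ d ∈ (Icc 1 z).filter (k ∣ ·), (if d ∣ k' then (moebius (k' / d) : ℝ) else 0) =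
      if k' = k then (moebius k : ℝ) / Nat.totient k / GG z else 0 := by
    intro k' hk'
    have hk'' := (mem_sqf.1 hk').1
    rw [sum_mu hk hk''.1 hk''.2]
    split_ifs with h
    · rw [h, mul_one]
    · rw [mul_zero]
  rw [Finset.sum_congr rfl h2, Finset.sum_ite_eq']

/-- The main term of the Selberg sieve. -/
lemma main_term {z : ℕ} (hz : 1 ≤ z) :
    ∑ d ∈ Icc 1 z, ∑ e ∈ Icc 1 z, lam z d * lam z e / (Nat.lcm d e : ℝ) = 1 / GG z := by
  have h1 : ∀ d ∈ Icc 1 z, ∀ e ∈ Icc 1 z, lam z d * lam z e / (Nat.lcm d e : ℝ) =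
      ∑ k ∈ Icc 1 z, (Nat.totient k : ℝ) *
        ((if k ∣ d then lam z d / d else 0) * (if k ∣ e then lam z e / e else 0)) := by
    intro d hd e he
    rw [Finset.mem_Icc] at hd he
    have hd0 : (d : ℝ) ≠ 0 := by exact_mod_cast (by omega : d ≠ 0)
    have he0 : (e : ℝ) ≠ 0 := by exact_mod_cast (by omega : e ≠ 0)
    have hg0 : 0 < Nat.gcd d e := Nat.gcd_pos_of_pos_left _ (by omega)
    have h2 : ((Nat.gcd d e : ℕ) : ℝ) * (Nat.lcm d e : ℝ) = d * e := by
      exact_mod_cast Nat.gcd_mul_lcm d e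
    have hl0 : (Nat.lcm d e : ℝ) ≠ 0 := by
      intro h0
      rw [h0, mul_zero] at h2
      exact mul_ne_zero hd0 he0 h2.symm
    have h3 : ((Nat.gcd d e : ℕ) : ℝ) = ∑ k ∈ Icc 1 z,
        (Nat.totient k : ℝ) * ((if k ∣ d then 1 else 0) * (if k ∣ e then 1 else 0)) := by
      have h4 : (Nat.gcd d e).divisors = (Icc 1 z).filter fun k => k ∣ d ∧ k ∣ e := by
        ext k
        rw [Nat.mem_divisors, Finset.mem_filter, Finset.mem_Icc, Nat.dvd_gcd_iff]
        constructor
        · rintro ⟨⟨h5, h6⟩, _⟩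
          exact ⟨⟨Nat.pos_of_dvd_of_pos h5 (by omega), (Nat.le_of_dvd (by omega) h5).trans hd.2⟩,
            h5, h6⟩
        · rintro ⟨_, h5, h6⟩
          exact ⟨⟨h5, h6⟩, hg0.ne'⟩
      conv_lhs => rw [← Nat.sum_totient (Nat.gcd d e)]
      rw [h4, Finset.sum_filter]
      push_cast
      refine Finset.sum_congr rfl fun k _ => ?_
      by_cases h5 : k ∣ d <;> by_cases h6 : k ∣ e <;> simp [h5, h6]
    have h5 : lam z d * lam z e / (Nat.lcm d e : ℝ) =
        ((Nat.gcd d e : ℕ) : ℝ) * (lam z d / d * (lam z e / e)) := by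
      rw [div_eq_iff hl0]
      field_simp
      linear_combination (-(lam z d * lam z e)) * h2
    rw [h5, h3, Finset.sum_mul]
    refine Finset.sum_congr rfl fun k _ => ?_
    by_cases h5 : k ∣ d <;> by_cases h6 : k ∣ e <;> simp [h5, h6]
  have h2 : ∑ d ∈ Icc 1 z, ∑ e ∈ Icc 1 z, lam z d * lam z e / (Nat.lcm d e : ℝ) =
      ∑ k ∈ Icc 1 z, (Nat.totient k : ℝ) *
        (∑ d ∈ (Icc 1 z).filter (k ∣ ·), lam z d / d) ^ 2 := by
    rw [Finset.sum_congr rfl fun d hd => Finset.sum_congr rfl fun e he => h1 d hd e he]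
    rw [Finset.sum_congr rfl fun d _ => Finset.sum_comm, Finset.sum_comm]
    refine Finset.sum_congr rfl fun k _ => ?_
    simp_rw [← Finset.mul_sum]
    congr 1
    rw [sq, Finset.sum_filter, Finset.sum_mul]
  rw [h2, Finset.sum_congr rfl fun k hk => by rw [sum_lam (Finset.mem_Icc.1 hk).1]]
  have hG := GG_pos hz
  have h3 : ∀ k ∈ Icc 1 z, (Nat.totient k : ℝ) *
      (if k ∈ sqf z then (moebius k : ℝ) / Nat.totient k / GG z else 0) ^ 2 =
      if k ∈ sqf z then 1 / (Nat.totient k : ℝ) / GG z ^ 2 else 0 := by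
    intro k _
    split_ifs with h
    · have h4 := tot_pos h
      have h5 := mu_sq h
      field_simp
      rw [sq, h5]
    · ring
  rw [Finset.sum_congr rfl h3, ← Finset.sum_filter]
  have h4 : (Icc 1 z).filter (· ∈ sqf z) = sqf z := by
    ext k
    rw [Finset.mem_filter, Finset.mem_Icc]
    constructor
    · exact fun h => h.2
    · exact fun h => ⟨(mem_sqf.1 h).1, h⟩
  rw [h4, ← Finset.sum_div]
  have h5 : ∑ k ∈ sqf z, 1 / (Nat.totient k : ℝ) = GG z := rfl
  rw [h5]
  field_simp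

lemma abs_lam {z : ℕ} (hz : 1 ≤ z) {d : ℕ} (hd : d ≤ z) : |lam z d| ≤ z := by
  have hG := GG_pos hz
  unfold lam
  rw [abs_mul, abs_div, abs_of_pos hG, abs_of_nonneg (Nat.cast_nonneg d : (0 : ℝ) ≤ d)]
  have h1 : |∑ k ∈ (sqf z).filter (d ∣ ·), (moebius (k / d) : ℝ) * (moebius k) / Nat.totient k| ≤
      GG z := by
    refine (Finset.abs_sum_le_sum_abs _ _).trans ?_
    unfold GG
    refine le_trans (Finset.sum_le_sum (g := fun k => 1 / (Nat.totient k : ℝ)) fun k hk => ?_)
      (Finset.sum_le_sum_of_subset_of_nonneg (Finset.filter_subset _ _) fun k hk _ => ?_)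
    · have h2 := tot_pos (Finset.mem_filter.1 hk).1
      rw [abs_div, abs_of_pos h2]
      apply div_le_div_of_nonneg_right _ h2.le
      rw [abs_mul]
      have h3 : |(moebius (k / d) : ℝ)| ≤ 1 := by
        have := abs_moebius_le_one (n := k / d)
        exact_mod_cast this
      have h4 : |(moebius k : ℝ)| ≤ 1 := by
        have := abs_moebius_le_one (n := k)
        exact_mod_cast this
      calc _ ≤ (1 : ℝ) * 1 := mul_le_mul h3 h4 (abs_nonneg _) zero_le_one
        _ = 1 := one_mul 1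
    · exact div_nonneg zero_le_one (tot_pos hk).le
  calc (d : ℝ) * _ ≤ d * 1 := by
        apply mul_le_mul_of_nonneg_left _ (Nat.cast_nonneg d)
        rw [div_le_one hG]
        exact h1
    _ ≤ z := by rw [mul_one]; exact_mod_cast hd

end Pool.Agent.Helper29.QT
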